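import Mathlib

/-!
# Points of the projective line over the rational numbers, ordered by height: statements
-/

set_option autoImplicit false

namespace Pool.Agent.N978.HP

open Filter Topology

/-- The rational points of the projective line: a primitive pair `(a, b)` of integers is the point
`a / b` (and `(-a, -b)` is the same point). -/
structure Pt where
  a : ℤ
  b : ℤ
  coprime : IsCoprime a b

/-- The height of the point. -/
def Pt.height (t : Pt) : ℕ := max t.a.natAbs t.b.natAbs

/-- The points `t` and `c` have the same reduction modulo `p`. -/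
def Pt.Cong (p : ℕ) (t c : Pt) : Prop := (p : ℤ) ∣ t.a * c.b - t.b * c.a

/-- The property `A` holds for 100 percent of the rational points of the projective line, ordered
by height. -/
def AlmostAll (A : Pt → Prop) : Prop :=
  Tendsto (fun H : ℕ => (Nat.card {t : Pt // t.height ≤ H ∧ ¬ A t} : ℝ) /
    (Nat.card {t : Pt // t.height ≤ H} : ℝ)) atTop (𝓝 0)

/-- **SV** (sieve): if the sum of `1 / p` over the primes in `R` diverges and `c p` is a point for
every `p`, then 100 percent of the points are congruent to `c p` modulo `p` for at least `k` of the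
primes `p` in `R`. -/
def S_SV : Prop := ∀ (R : Set ℕ) (c : ℕ → Pt), (∀ p ∈ R, p.Prime) →
  ¬ Summable (fun p : R => (1 : ℝ) / ((p : ℕ) : ℝ)) → ∀ k : ℕ,
  AlmostAll fun t => ∃ F : Finset ℕ, k ≤ F.card ∧ ∀ p ∈ F, p ∈ R ∧ t.Cong p (c p)

/-- **AA**: two properties which hold for 100 percent of the points hold at the same time for 100
percent of the points. -/
def S_AA : Prop := ∀ A B : Pt → Prop, AlmostAll A → AlmostAll B → AlmostAll fun t => A t ∧ B t

/-- **DV**: a set of primes of positive lower density has a divergent sum of reciprocals. -/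
def S_DV : Prop := ∀ (R : Set ℕ) (δ : ℝ), (∀ p ∈ R, p.Prime) → 0 < δ →
  (∀ᶠ n : ℕ in atTop, δ * (Nat.primeCounting n : ℝ) ≤ (Nat.card {p : ℕ // p ≤ n ∧ p ∈ R} : ℝ)) →
  ¬ Summable (fun p : R => (1 : ℝ) / ((p : ℕ) : ℝ))

end Pool.Agent.N978.HP
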