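import Mathlib
import Pool.Agent.N978.HP.Stm

/-!
# Rational points of an open subset of the projective line, and their reductions
-/

set_option autoImplicit false

namespace Pool.Agent.N978.HP

/-- The value of the polynomial `D` in two variables at the point `t`. -/
noncomputable def Pt.val (D : MvPolynomial (Fin 2) ℤ) (t : Pt) : ℤ :=
  MvPolynomial.eval ![t.a, t.b] D

/-- The rational point `t` of the projective line is a point of `U`, the complement of the zeros of
the binary form `D`. -/
def InU (D : MvPolynomial (Fin 2) ℤ) (t : Pt) : Prop := t.val D ≠ 0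

/-- The prime number `p` does not divide `m`, and the reduction of `t` modulo `p` is a point of
`U`. -/
def GoodAt (m : ℕ) (D : MvPolynomial (Fin 2) ℤ) (t : Pt) (p : ℕ) : Prop :=
  p.Prime ∧ ¬ p ∣ m ∧ ¬ (p : ℤ) ∣ t.val D

end Pool.Agent.N978.HP
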