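import Mathlib
import Pool.Agent.N978.HP.Stm

/-!
# Properties of almost all points: monotonicity
-/

set_option autoImplicit false

namespace Pool.Agent.N978.HP

open Filter Topology

theorem finite_of_imp {α : Type} {p q : α → Prop} (hq : Finite {x // q x}) (h : ∀ x, p x → q x) :
    Finite {x // p x} :=
  Finite.of_injective (Subtype.map id h) (Subtype.map_injective h Function.injective_id)

theorem card_le_of_imp {α : Type} {p q : α → Prop} (hq : Finite {x // q x})
    (h : ∀ x, p x → q x) : Nat.card {x // p x} ≤ Nat.card {x // q x} :=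
  Nat.card_le_card_of_injective (Subtype.map id h) (Subtype.map_injective h Function.injective_id)

theorem finite_le (n : ℕ) : Finite {p : ℕ // p ≤ n} := (Set.finite_Iic n).to_subtype

theorem Pt.ext' {t u : Pt} (h1 : t.a = u.a) (h2 : t.b = u.b) : t = u := by
  cases t
  cases u
  simp_all

theorem finite_height (H : ℕ) : Finite {t : Pt // t.height ≤ H} := by
  have hb : ∀ x : ℤ, x.natAbs ≤ H → x ∈ Set.Icc (-(H : ℤ)) (H : ℤ) := by
    intro x hx
    constructor <;> omega
  have h1 : Finite (Set.Icc (-(H : ℤ)) (H : ℤ) × Set.Icc (-(H : ℤ)) (H : ℤ)) := inferInstance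
  refine Finite.of_injective (fun t : {t : Pt // t.height ≤ H} =>
    ((⟨t.1.a, hb _ ((le_max_left _ _).trans t.2)⟩, ⟨t.1.b, hb _ ((le_max_right _ _).trans t.2)⟩) :
      Set.Icc (-(H : ℤ)) (H : ℤ) × Set.Icc (-(H : ℤ)) (H : ℤ))) ?_
  intro t u h
  simp only [Prod.mk.injEq, Subtype.mk.injEq] at h
  exact Subtype.ext (Pt.ext' h.1 h.2)

theorem almostAll_mono {A B : Pt → Prop} (hA : AlmostAll A) (h : ∀ t, A t → B t) : AlmostAll B := by
  refine squeeze_zero (fun H => by positivity) (fun H => ?_) hA
  have hf2 : Finite {t : Pt // t.height ≤ H ∧ ¬ A t} :=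
    finite_of_imp (finite_height H) fun t ht => ht.1
  apply div_le_div_of_nonneg_right _ (Nat.cast_nonneg _)
  have h1 : Nat.card {t : Pt // t.height ≤ H ∧ ¬ B t} ≤ Nat.card {t : Pt // t.height ≤ H ∧ ¬ A t} :=
    card_le_of_imp hf2 fun t ht => ⟨ht.1, fun hA => ht.2 (h t hA)⟩
  exact_mod_cast h1

/-- Finitely many properties. -/
theorem almostAll_forall (hAA : S_AA) {κ : Type} [Finite κ] {A : κ → Pt → Prop}
    (hA : ∀ i, AlmostAll (A i)) : AlmostAll fun t => ∀ i, A i t := by
  classical
  have hf : Fintype κ := Fintype.ofFinite κ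
  have h0 : AlmostAll fun _ => True := by
    unfold AlmostAll
    simp
  have h1 : ∀ F : Finset κ, AlmostAll fun t => ∀ i ∈ F, A i t := by
    intro F
    induction F using Finset.induction_on with
    | empty => exact almostAll_mono h0 fun t _ i hi => absurd hi (Finset.notMem_empty i)
    | insert a F ha ih =>
      refine almostAll_mono (hAA _ _ (hA a) ih) ?_
      rintro t ⟨h2, h3⟩ i hi
      rcases Finset.mem_insert.1 hi with rfl | hi
      · exact h2
      · exact h3 i hi
  exact almostAll_mono (h1 Finset.univ) fun t h i => h i (Finset.mem_univ i)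

end Pool.Agent.N978.HP
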