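import Pool.Agent.Y405.ZO.Frob
import Pool.Agent.R931.IR.RatPlace
import Pool.Agent.N978.HP.Basic

/-!
# Frobenius elements in an open set: positive density
-/

set_option autoImplicit false

namespace Pool.Agent.N978.HP

open Filter Topology NumberField IsDedekindDomain
open Pool.Agent.W401.Cheb (dens IsFrob GK)

/-- The Frobenius elements in a nonempty open set: positive density. -/
theorem dens_pos (O : Set (GK ℚ)) (hO : IsOpen O) (hne : O.Nonempty) :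
    ∃ δ : ℝ, 0 < δ ∧ ∀ᶠ n : ℕ in atTop,
      δ ≤ dens (fun v : HeightOneSpectrum (𝓞 ℚ) => ∃ σ : GK ℚ, IsFrob v σ ∧ σ⁻¹ ∈ O) n := by
  classical
  obtain ⟨σ₀, hσ₀⟩ := hne
  set τ₀ : GK ℚ := σ₀⁻¹ with hτ₀
  have hW : IsOpen {g : GK ℚ | (τ₀ * g)⁻¹ ∈ O} := hO.preimage (by fun_prop)
  have h1W : (1 : GK ℚ) ∈ {g : GK ℚ | (τ₀ * g)⁻¹ ∈ O} := by
    simp [hτ₀, hσ₀]
  obtain ⟨U, hU⟩ := ProfiniteGrp.exist_openNormalSubgroup_sub_open_nhds_of_one hW h1W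
  have hUo : IsOpen (U.toSubgroup : Set (GK ℚ)) := U.isOpen'
  have hUn : U.toSubgroup.Normal := U.isNormal'
  set C : Set (GK ℚ) := {τ | ∃ ρ, ∃ u ∈ U.toSubgroup, ρ⁻¹ * τ * ρ = τ₀ * u} with hC
  have key := Pool.Agent.W528.Ord.chebK ℚ U.toSubgroup hUo C ?_ ?_
  rotate_left
  · rintro τ ⟨ρ, u, hu, h⟩ κ
    refine ⟨κ * ρ, u, hu, ?_⟩
    rw [← h]
    group
  · rintro τ ⟨ρ, u, hu, h⟩ w hw
    refine ⟨ρ, u * (ρ⁻¹ * w * ρ), U.toSubgroup.mul_mem hu ?_, ?_⟩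
    · have := Subgroup.Normal.conj_mem hUn w hw ρ⁻¹
      simpa using this
    · calc ρ⁻¹ * (τ * w) * ρ = (ρ⁻¹ * τ * ρ) * (ρ⁻¹ * w * ρ) := by group
        _ = τ₀ * (u * (ρ⁻¹ * w * ρ)) := by rw [h, mul_assoc]
  have hfin : Finite (GK ℚ ⧸ U.toSubgroup) := Subgroup.quotient_finite_of_isOpen _ hUo
  have h5 : 0 < ((QuotientGroup.mk : GK ℚ → GK ℚ ⧸ U.toSubgroup) '' C).ncard := by
    rw [Set.ncard_pos (Set.toFinite _)]
    exact ⟨_, τ₀, ⟨1, 1, U.toSubgroup.one_mem, by simp⟩, rfl⟩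
  have h6 : 0 < Nat.card (GK ℚ ⧸ U.toSubgroup) := Nat.card_pos
  have h7 : (0 : ℝ) < (((QuotientGroup.mk : GK ℚ → GK ℚ ⧸ U.toSubgroup) '' C).ncard : ℝ) /
      (Nat.card (GK ℚ ⧸ U.toSubgroup) : ℝ) := by positivity
  refine ⟨_, half_pos h7, ?_⟩
  have h8 := key.eventually (lt_mem_nhds (half_lt_self h7))
  filter_upwards [h8] with n hn
  refine hn.le.trans ?_
  unfold dens
  apply div_le_div_of_nonneg_right _ (Nat.cast_nonneg _)
  have hsub : ∀ v : HeightOneSpectrum (𝓞 ℚ), (∃ σ ∈ C, IsFrob v σ) →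
      ∃ σ : GK ℚ, IsFrob v σ ∧ σ⁻¹ ∈ O := by
    rintro v ⟨σ, ⟨ρ, u, hu, h⟩, hσ⟩
    have h1 := (Pool.Agent.W401.Frob.main ℚ).2.2 v σ ρ⁻¹ hσ
    rw [inv_inv, h] at h1
    exact ⟨_, h1, hU hu⟩
  have hfin2 : Finite {v : HeightOneSpectrum (𝓞 ℚ) // Ideal.absNorm v.asIdeal ≤ n ∧
      ∃ σ : GK ℚ, IsFrob v σ ∧ σ⁻¹ ∈ O} := by
    have h9 : Finite {v : HeightOneSpectrum (𝓞 ℚ) // Ideal.absNorm v.asIdeal ≤ n} := by
      have h10 : Function.Injective (fun v : {v : HeightOneSpectrum (𝓞 ℚ) //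
          Ideal.absNorm v.asIdeal ≤ n} => (⟨Ideal.absNorm v.1.asIdeal, Nat.lt_succ_of_le v.2⟩ :
            Fin (n + 1))) := by
        intro v w hvw
        have h11 : Ideal.absNorm v.1.asIdeal = Ideal.absNorm w.1.asIdeal := congrArg Fin.val hvw
        obtain ⟨p, hp, hpv⟩ := Pool.Agent.R931.IR.exists_prime v.1
        obtain ⟨p', hp', hpw⟩ := Pool.Agent.R931.IR.exists_prime w.1
        rw [Pool.Agent.R931.IR.absNorm_eq hp hpv, Pool.Agent.R931.IR.absNorm_eq hp' hpw] at h11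
        subst h11
        exact Subtype.ext ((Pool.Agent.R931.IR.above_iff hp hpw v.1).1 hpv)
      exact Finite.of_injective _ h10
    exact finite_of_imp h9 fun v hv => hv.1
  have h12 : Nat.card {v : HeightOneSpectrum (𝓞 ℚ) // Ideal.absNorm v.asIdeal ≤ n ∧
      ∃ σ ∈ C, IsFrob v σ} ≤ Nat.card {v : HeightOneSpectrum (𝓞 ℚ) //
        Ideal.absNorm v.asIdeal ≤ n ∧ ∃ σ : GK ℚ, IsFrob v σ ∧ σ⁻¹ ∈ O} :=
    card_le_of_imp hfin2 fun v hv => ⟨hv.1, hsub v hv.2⟩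
  exact_mod_cast h12

/-- The same in terms of prime numbers: the primes `p` outside of a finite set with a Frobenius
element in an open set have positive lower density. -/
theorem primes_pos (O : Set (GK ℚ)) (hO : IsOpen O) (hne : O.Nonempty) (B : Set ℕ)
    (hB : B.Finite) :
    ∃ δ : ℝ, 0 < δ ∧ ∀ᶠ n : ℕ in atTop, δ * (Nat.primeCounting n : ℝ) ≤
      (Nat.card {p : ℕ // p ≤ n ∧ p ∈ {p : ℕ | p.Prime ∧ p ∉ B ∧
        ∃ v : HeightOneSpectrum (𝓞 ℚ), (p : 𝓞 ℚ) ∈ v.asIdeal ∧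
          ∃ σ : GK ℚ, IsFrob v σ ∧ σ⁻¹ ∈ O}} : ℝ) := by
  classical
  obtain ⟨δ, hδ, hev⟩ := dens_pos O hO hne
  refine ⟨δ / 2, half_pos hδ, ?_⟩
  have hpi : Tendsto (fun n : ℕ => δ / 2 * (Nat.primeCounting n : ℝ)) atTop atTop :=
    (tendsto_natCast_atTop_atTop.comp Nat.tendsto_primeCounting).const_mul_atTop (half_pos hδ)
  filter_upwards [hev, hpi.eventually_ge_atTop (Nat.card B : ℝ)] with n hn hn2
  set A : Set ℕ := {p : ℕ | p.Prime ∧ p ∉ B ∧ ∃ v : HeightOneSpectrum (𝓞 ℚ),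
    (p : 𝓞 ℚ) ∈ v.asIdeal ∧ ∃ σ : GK ℚ, IsFrob v σ ∧ σ⁻¹ ∈ O} with hA
  have h1 : δ * (Nat.primeCounting n : ℝ) ≤ (Nat.card {v : HeightOneSpectrum (𝓞 ℚ) //
      Ideal.absNorm v.asIdeal ≤ n ∧ ∃ σ : GK ℚ, IsFrob v σ ∧ σ⁻¹ ∈ O} : ℝ) := by
    unfold dens at hn
    rcases Nat.eq_zero_or_pos (Nat.primeCounting n) with h | h
    · rw [h, Nat.cast_zero, mul_zero]
      exact Nat.cast_nonneg _
    · rwa [le_div_iff₀ (by exact_mod_cast h)] at hn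
  have hBf : Finite B := hB
  have hfA : Finite {p : ℕ // p ≤ n ∧ p ∈ A} :=
    finite_of_imp (finite_le n) fun p hp => hp.1
  have h2 : Nat.card {v : HeightOneSpectrum (𝓞 ℚ) // Ideal.absNorm v.asIdeal ≤ n ∧
      ∃ σ : GK ℚ, IsFrob v σ ∧ σ⁻¹ ∈ O} ≤ Nat.card ({p : ℕ // p ≤ n ∧ p ∈ A} ⊕ B) := by
    refine Nat.card_le_card_of_injective (fun v =>
      if h : Ideal.absNorm v.1.asIdeal ∈ B then Sum.inr ⟨_, h⟩
      else Sum.inl ⟨Ideal.absNorm v.1.asIdeal, v.2.1, ?_⟩) ?_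
    · obtain ⟨p, hp, hpv⟩ := Pool.Agent.R931.IR.exists_prime v.1
      have h3 := Pool.Agent.R931.IR.absNorm_eq hp hpv
      refine ⟨h3 ▸ hp, h, v.1, ?_, v.2.2⟩
      rw [h3]
      exact hpv
    · intro v w hvw
      have h4 : Ideal.absNorm v.1.asIdeal = Ideal.absNorm w.1.asIdeal := by
        by_cases hv : Ideal.absNorm v.1.asIdeal ∈ B
        · by_cases hw : Ideal.absNorm w.1.asIdeal ∈ B
          · simp only [dif_pos hv, dif_pos hw, Sum.inr.injEq, Subtype.mk.injEq] at hvw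
            exact hvw
          · simp only [dif_pos hv, dif_neg hw] at hvw
            exact absurd hvw (by simp)
        · by_cases hw : Ideal.absNorm w.1.asIdeal ∈ B
          · simp only [dif_neg hv, dif_pos hw] at hvw
            exact absurd hvw (by simp)
          · simp only [dif_neg hv, dif_neg hw, Sum.inl.injEq, Subtype.mk.injEq] at hvw
            exact hvw
      obtain ⟨p, hp, hpv⟩ := Pool.Agent.R931.IR.exists_prime v.1
      obtain ⟨p', hp', hpw⟩ := Pool.Agent.R931.IR.exists_prime w.1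
      rw [Pool.Agent.R931.IR.absNorm_eq hp hpv, Pool.Agent.R931.IR.absNorm_eq hp' hpw] at h4
      subst h4
      exact Subtype.ext ((Pool.Agent.R931.IR.above_iff hp hpw v.1).1 hpv)
  have h5 : (Nat.card {v : HeightOneSpectrum (𝓞 ℚ) // Ideal.absNorm v.asIdeal ≤ n ∧
      ∃ σ : GK ℚ, IsFrob v σ ∧ σ⁻¹ ∈ O} : ℝ) ≤ (Nat.card {p : ℕ // p ≤ n ∧ p ∈ A} : ℝ) +
        (Nat.card B : ℝ) := by
    rw [Nat.card_sum] at h2
    exact_mod_cast h2
  have h6 : δ / 2 * (Nat.primeCounting n : ℝ) ≤ (Nat.card {p : ℕ // p ≤ n ∧ p ∈ A} : ℝ) := by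
    linarith
  exact h6

end Pool.Agent.N978.HP
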