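import Mathlib
import Pool.Agent.N978.HP.Base

/-!
# Values of binary forms at rational points, modulo a prime number
-/

set_option autoImplicit false

namespace Pool.Agent.N978.HP

theorem eval_cast (p : ℕ) (D : MvPolynomial (Fin 2) ℤ) (x : Fin 2 → ℤ) :
    ((MvPolynomial.eval x D : ℤ) : ZMod p) =
      ∑ d ∈ D.support, ((D.coeff d : ℤ) : ZMod p) * ∏ i, ((x i : ℤ) : ZMod p) ^ d i := by
  rw [MvPolynomial.eval_eq', Int.cast_sum]
  refine Finset.sum_congr rfl fun d _ => ?_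
  rw [Int.cast_mul, Int.cast_prod]
  congr 1
  exact Finset.prod_congr rfl fun i _ => by rw [Int.cast_pow]

theorem eval_scale {p n : ℕ} {D : MvPolynomial (Fin 2) ℤ} (hD : D.IsHomogeneous n)
    (x y : Fin 2 → ℤ) (c : ℤ) (h : ∀ i, ((x i : ℤ) : ZMod p) = (c : ZMod p) * ((y i : ℤ) : ZMod p)) :
    ((MvPolynomial.eval x D : ℤ) : ZMod p) =
      (c : ZMod p) ^ n * ((MvPolynomial.eval y D : ℤ) : ZMod p) := by
  rw [eval_cast, eval_cast, Finset.mul_sum]
  refine Finset.sum_congr rfl fun d hd => ?_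
  have h1 : ∑ i, d i = n := by
    have h2 := hD (MvPolynomial.mem_support_iff.1 hd)
    rw [Finsupp.weight_apply, Finsupp.sum_fintype _ _ (by simp)] at h2
    simpa using h2
  have h3 : ∏ i, ((x i : ℤ) : ZMod p) ^ d i =
      (c : ZMod p) ^ n * ∏ i, ((y i : ℤ) : ZMod p) ^ d i := by
    rw [← h1, ← Finset.prod_pow_eq_pow_sum, ← Finset.prod_mul_distrib]
    exact Finset.prod_congr rfl fun i _ => by rw [h i, mul_pow]
  rw [h3]
  ring

/-- The reduction of `t` is not a zero of the form `D` if it is equal to the reduction of `t'` and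
this is not a zero of `D`. -/
theorem not_dvd_of_cong {p n : ℕ} (hp : p.Prime) {D : MvPolynomial (Fin 2) ℤ}
    (hD : D.IsHomogeneous n) {t t' : Pt} (h : t.Cong p t') (ht' : ¬ (p : ℤ) ∣ t'.val D) :
    ¬ (p : ℤ) ∣ t.val D := by
  intro hdiv
  have hfact : Fact p.Prime := ⟨hp⟩
  obtain ⟨u, v, huv⟩ := t'.coprime
  have hc : ((t.a : ℤ) : ZMod p) * (t'.b : ZMod p) = (t.b : ZMod p) * (t'.a : ZMod p) := by
    have h1 : (((t.a * t'.b - t.b * t'.a : ℤ)) : ZMod p) = 0 :=
      (ZMod.intCast_zmod_eq_zero_iff_dvd _ p).2 h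
    push_cast at h1
    exact sub_eq_zero.1 h1
  have huv' : (u : ZMod p) * (t'.a : ZMod p) + (v : ZMod p) * (t'.b : ZMod p) = 1 := by
    have h1 := congrArg (fun z : ℤ => (z : ZMod p)) huv
    simpa using h1
  set c : ℤ := u * t.a + v * t.b with hcdef
  have hcc : (c : ZMod p) = (u : ZMod p) * (t.a : ZMod p) + (v : ZMod p) * (t.b : ZMod p) := by
    rw [hcdef]
    push_cast
    ring
  have ha : ((t.a : ℤ) : ZMod p) = (c : ZMod p) * (t'.a : ZMod p) := by
    calc ((t.a : ℤ) : ZMod p) = (t.a : ZMod p) *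
          ((u : ZMod p) * (t'.a : ZMod p) + (v : ZMod p) * (t'.b : ZMod p)) := by
            rw [huv', mul_one]
      _ = (u : ZMod p) * (t.a : ZMod p) * (t'.a : ZMod p) +
          (v : ZMod p) * ((t.a : ZMod p) * (t'.b : ZMod p)) := by ring
      _ = (c : ZMod p) * (t'.a : ZMod p) := by rw [hc, hcc]; ring
  have hb : ((t.b : ℤ) : ZMod p) = (c : ZMod p) * (t'.b : ZMod p) := by
    calc ((t.b : ℤ) : ZMod p) = (t.b : ZMod p) *
          ((u : ZMod p) * (t'.a : ZMod p) + (v : ZMod p) * (t'.b : ZMod p)) := by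
            rw [huv', mul_one]
      _ = (u : ZMod p) * ((t.b : ZMod p) * (t'.a : ZMod p)) +
          (v : ZMod p) * (t.b : ZMod p) * (t'.b : ZMod p) := by ring
      _ = (c : ZMod p) * (t'.b : ZMod p) := by rw [← hc, hcc]; ring
  have h2 := eval_scale (p := p) hD ![t.a, t.b] ![t'.a, t'.b] c (by
    intro i
    fin_cases i
    · exact ha
    · exact hb)
  have h3 : ((t.val D : ℤ) : ZMod p) = 0 := (ZMod.intCast_zmod_eq_zero_iff_dvd _ p).2 hdiv
  have h4 : ((t'.val D : ℤ) : ZMod p) ≠ 0 := fun h0 =>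
    ht' ((ZMod.intCast_zmod_eq_zero_iff_dvd _ p).1 h0)
  have h5 : (c : ZMod p) ^ n * ((t'.val D : ℤ) : ZMod p) = 0 := by
    rw [← h3]
    exact h2.symm
  have h6 : (c : ZMod p) ^ n = 0 := (mul_eq_zero.1 h5).resolve_right h4
  have h7 : (c : ZMod p) = 0 := by
    rcases Nat.eq_zero_or_pos n with hn | hn
    · rw [hn, pow_zero] at h6
      exact absurd h6 one_ne_zero
    · exact pow_eq_zero_iff hn.ne' |>.1 h6
  rw [h7, zero_mul] at ha hb
  obtain ⟨x, y, hxy⟩ := t.coprime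
  have h8 := congrArg (fun z : ℤ => (z : ZMod p)) hxy
  push_cast at h8
  rw [ha, hb, mul_zero, mul_zero, add_zero] at h8
  exact zero_ne_one h8

theorem Pt.Cong.symm {p : ℕ} {t c : Pt} (h : t.Cong p c) : c.Cong p t := by
  have h1 : c.a * t.b - c.b * t.a = -(t.a * c.b - t.b * c.a) := by ring
  show (p : ℤ) ∣ c.a * t.b - c.b * t.a
  rw [h1]
  exact (dvd_neg).2 h

theorem dvd_of_cong {p n : ℕ} (hp : p.Prime) {C : MvPolynomial (Fin 2) ℤ}
    (hC : C.IsHomogeneous n) {t c : Pt} (h : t.Cong p c) (hc : (p : ℤ) ∣ c.val C) :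
    (p : ℤ) ∣ t.val C := by
  by_contra hcon
  exact not_dvd_of_cong hp hC h.symm hcon hc

end Pool.Agent.N978.HP
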