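import Mathlib
import Pool.Agent.R931.IR.RatPlace
import Pool.Agent.N978.HP.Form

/-!
# Zeros of binary forms modulo prime numbers
-/

set_option autoImplicit false

namespace Pool.Agent.N978.HP

open NumberField IsDedekindDomain Polynomial

/-- the value of a polynomial with integer coefficients in a commutative ring -/
noncomputable def ev {R : Type*} [CommRing R] (x y : R) (C : MvPolynomial (Fin 2) ℤ) : R :=
  MvPolynomial.eval₂ (Int.castRingHom R) ![x, y] C

theorem ev_eq {R : Type*} [CommRing R] (x y : R) (C : MvPolynomial (Fin 2) ℤ) :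
    ev x y C = ∑ d ∈ C.support, ((C.coeff d : ℤ) : R) * (x ^ d 0 * y ^ d 1) := by
  rw [ev, MvPolynomial.eval₂_eq']
  refine Finset.sum_congr rfl fun d _ => ?_
  rw [Fin.prod_univ_two]
  rfl

theorem ev_scale {R : Type*} [CommRing R] {n : ℕ} {C : MvPolynomial (Fin 2) ℤ}
    (hC : C.IsHomogeneous n) (x y c : R) : ev (c * x) (c * y) C = c ^ n * ev x y C := by
  rw [ev_eq, ev_eq, Finset.mul_sum]
  refine Finset.sum_congr rfl fun d hd => ?_
  have h1 : d 0 + d 1 = n := by
    have h2 := hC (MvPolynomial.mem_support_iff.1 hd)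
    rw [Finsupp.weight_apply, Finsupp.sum_fintype _ _ (by simp)] at h2
    simpa using h2
  rw [mul_pow, mul_pow, ← h1, pow_add]
  ring

theorem map_ev {R S : Type*} [CommRing R] [CommRing S] (φ : R →+* S) (x y : R)
    (C : MvPolynomial (Fin 2) ℤ) : φ (ev x y C) = ev (φ x) (φ y) C := by
  rw [ev_eq, ev_eq, map_sum]
  refine Finset.sum_congr rfl fun d _ => ?_
  rw [map_mul, map_mul, map_pow, map_pow, map_intCast]

theorem ev_int (x y : ℤ) (C : MvPolynomial (Fin 2) ℤ) :
    ev x y C = MvPolynomial.eval ![x, y] C := by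
  rw [ev_eq, MvPolynomial.eval_eq']
  refine Finset.sum_congr rfl fun d _ => ?_
  rw [Fin.prod_univ_two]
  simp

theorem intCast_ev {R : Type*} [CommRing R] (x y : ℤ) (C : MvPolynomial (Fin 2) ℤ) :
    ((MvPolynomial.eval ![x, y] C : ℤ) : R) = ev (x : R) (y : R) C := by
  rw [← ev_int]
  exact map_ev (Int.castRingHom R) x y C

/-- A binary form of positive degree has the zero `∞` or an algebraic number as a zero. -/
theorem exists_zero {d : ℕ} (hd : 0 < d) {C : MvPolynomial (Fin 2) ℤ} (hC : C.IsHomogeneous d) :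
    MvPolynomial.eval ![1, 0] C = 0 ∨ ∃ θ : AlgebraicClosure ℚ, ev θ 1 C = 0 := by
  classical
  set f : (AlgebraicClosure ℚ)[X] := ev X 1 C with hf
  set g : (AlgebraicClosure ℚ)[X] := ev 1 X C with hg
  have hfe : ∀ x : AlgebraicClosure ℚ, f.eval x = ev x 1 C := by
    intro x
    have h1 := map_ev (Polynomial.evalRingHom x) X 1 C
    rw [map_one] at h1
    simpa using h1
  have hge : ∀ x : AlgebraicClosure ℚ, g.eval x = ev 1 x C := by
    intro x
    have h1 := map_ev (Polynomial.evalRingHom x) 1 X C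
    rw [map_one] at h1
    simpa using h1
  by_cases hdeg : f.degree = 0
  · left
    have hfc : ∀ x : AlgebraicClosure ℚ, f.coeff 0 = ev x 1 C := by
      intro x
      rw [← hfe, Polynomial.eq_C_of_degree_eq_zero hdeg]
      simp
    have h1 : g = Polynomial.C (f.coeff 0) * X ^ d := by
      apply Polynomial.eq_of_infinite_eval_eq
      refine Set.Infinite.mono (s := {0}ᶜ) ?_ (Set.finite_singleton _).infinite_compl
      intro y hy
      have hy : y ≠ 0 := hy
      show g.eval y = (Polynomial.C (f.coeff 0) * X ^ d).eval y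
      have h2 := ev_scale hC y⁻¹ 1 y
      rw [mul_inv_cancel₀ hy, mul_one, ← hfc] at h2
      rw [hge, h2]
      simp
      ring
    have h2 := hge 0
    rw [h1] at h2
    have h3 : ev (1 : AlgebraicClosure ℚ) 0 C = 0 := by
      rw [← h2]
      simp [hd.ne']
    have h4 := intCast_ev (R := AlgebraicClosure ℚ) 1 0 C
    rw [Int.cast_one, Int.cast_zero, h3] at h4
    exact_mod_cast h4
  · right
    obtain ⟨θ, hθ⟩ := IsAlgClosed.exists_root f hdeg
    exact ⟨θ, (hfe θ).symm.trans hθ⟩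

/-- An algebraic integer fixed by Frobenius is congruent to an integer. -/
theorem exists_int {p : ℕ} (hp : p.Prime) {k : Type*} [Field k] [CharP k p] {x : k}
    (hx : x ^ p = x) : ∃ b : ℤ, x = b := by
  have : Fact p.Prime := ⟨hp⟩
  have h1 := (Subfield.mem_bot_iff_pow_eq_self k p).2 hx
  rw [← ZMod.fieldRange_castHom_eq_bot p] at h1
  obtain ⟨z, hz⟩ := RingHom.mem_fieldRange.1 h1
  refine ⟨(z.val : ℤ), ?_⟩
  rw [← hz]
  have h2 : z = ((z.val : ℕ) : ZMod p) := (ZMod.natCast_zmod_val z).symm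
  conv_lhs => rw [h2]
  rw [map_natCast]
  simp

theorem zero_mod {p : ℕ} (hp : p.Prime) {Q : Ideal (𝓞 (AlgebraicClosure ℚ))} (hQ : Q.IsMaximal)
    (hpQ : (p : 𝓞 (AlgebraicClosure ℚ)) ∈ Q) {d : ℕ} {C : MvPolynomial (Fin 2) ℤ}
    (hC : C.IsHomogeneous d) {β : 𝓞 (AlgebraicClosure ℚ)} {a : ℤ}
    (hβ : ev β (a : 𝓞 (AlgebraicClosure ℚ)) C = 0) (hpa : ¬ (p : ℤ) ∣ a)
    (hfix : β - β ^ p ∈ Q) : ∃ c : Pt, (p : ℤ) ∣ c.val C := by
  have : Fact p.Prime := ⟨hp⟩
  let _ : Field (𝓞 (AlgebraicClosure ℚ) ⧸ Q) := Ideal.Quotient.field Q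
  have hchar : CharP (𝓞 (AlgebraicClosure ℚ) ⧸ Q) p := by
    refine (CharP.charP_iff_prime_eq_zero hp).2 ?_
    have h1 := Ideal.Quotient.eq_zero_iff_mem.2 hpQ
    rwa [map_natCast] at h1
  set π := Ideal.Quotient.mk Q with hπ
  have h1 : (π β) ^ p = π β := by
    rw [← map_pow]
    exact (Ideal.Quotient.eq.2 hfix).symm
  obtain ⟨b, hb⟩ := exists_int hp h1
  have h2 : ((MvPolynomial.eval ![b, a] C : ℤ) : 𝓞 (AlgebraicClosure ℚ) ⧸ Q) = 0 := by
    have h3 := congrArg π hβ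
    rw [map_zero, map_ev, hb, map_intCast] at h3
    rw [intCast_ev, h3]
  have h3 : (p : ℤ) ∣ MvPolynomial.eval ![b, a] C := (CharP.intCast_eq_zero_iff _ p _).1 h2
  have h4 : IsCoprime (p : ℤ) a :=
    (Nat.prime_iff_prime_int.1 hp).coprime_iff_not_dvd.2 hpa
  obtain ⟨u, a', hua⟩ := h4
  refine ⟨⟨b * a', 1, isCoprime_one_right⟩, ?_⟩
  have h5 := eval_scale (p := p) hC ![b * a', 1] ![b, a] a' (by
    intro i
    fin_cases i
    · simp [mul_comm]
    · have h6 := congrArg (fun z : ℤ => (z : ZMod p)) hua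
      push_cast at h6
      rw [CharP.cast_eq_zero, mul_zero, zero_add] at h6
      simp [h6])
  have h6 : ((MvPolynomial.eval ![b, a] C : ℤ) : ZMod p) = 0 :=
    (ZMod.intCast_zmod_eq_zero_iff_dvd _ p).2 h3
  rw [h6, mul_zero] at h5
  exact (ZMod.intCast_zmod_eq_zero_iff_dvd _ p).1 h5

/-- A binary form of positive degree has an integral algebraic zero. -/
theorem exists_integral_zero {d : ℕ} (hd : 0 < d) {C : MvPolynomial (Fin 2) ℤ}
    (hC : C.IsHomogeneous d) (h0 : MvPolynomial.eval ![1, 0] C ≠ 0) :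
    ∃ (β : 𝓞 (AlgebraicClosure ℚ)) (a : ℤ), a ≠ 0 ∧
      ev β (a : 𝓞 (AlgebraicClosure ℚ)) C = 0 := by
  obtain ⟨θ, hθ⟩ := (exists_zero hd hC).resolve_left h0
  have halg : IsAlgebraic ℤ θ := by
    have h2 := AlgebraicClosure.isAlgebraic ℚ
    have h1 : IsAlgebraic ℚ θ := h2.isAlgebraic θ
    exact (IsFractionRing.isAlgebraic_iff ℤ ℚ (AlgebraicClosure ℚ)).2 h1
  obtain ⟨a, ha, hint⟩ := halg.exists_integral_multiple
  refine ⟨⟨a • θ, hint⟩, a, ha, ?_⟩
  apply RingOfIntegers.coe_injective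
  have h2 := map_ev (algebraMap (𝓞 (AlgebraicClosure ℚ)) (AlgebraicClosure ℚ))
    ⟨a • θ, hint⟩ (a : 𝓞 (AlgebraicClosure ℚ)) C
  rw [map_intCast] at h2
  rw [map_zero]
  refine h2.trans ?_
  have h1 := ev_scale hC θ 1 (a : AlgebraicClosure ℚ)
  rw [hθ, mul_zero, mul_one] at h1
  rw [← h1]
  congr 1
  exact zsmul_eq_mul θ a

end Pool.Agent.N978.HP
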