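import Pool.Agent.N978.HP.Pos
import Pool.Agent.N978.HP.Zero

/-!
# Zeros of binary forms modulo prime numbers: positive density
-/

set_option autoImplicit false

namespace Pool.Agent.N978.HP

open Filter Topology NumberField IsDedekindDomain
open Pool.Agent.W401.Cheb (IsFrob GK)

/-- The elements which fix an algebraic integer. -/
theorem exists_fix {K : Type} [Field K] [NumberField K] (β : 𝓞 (AlgebraicClosure K)) :
    ∃ O : Set (GK K), IsOpen O ∧ 1 ∈ O ∧ ∀ σ : GK K, σ⁻¹ ∈ O → σ • β = β := by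
  set E := IntermediateField.adjoin K {(β : AlgebraicClosure K)} with hE
  have hEf : FiniteDimensional K E := IntermediateField.adjoin.finiteDimensional
    ((AlgebraicClosure.isAlgebraic K).isAlgebraic (β : AlgebraicClosure K)).isIntegral
  refine ⟨(E.fixingSubgroup : Set (GK K)), E.fixingSubgroup_isOpen, E.fixingSubgroup.one_mem,
    fun σ hσ => ?_⟩
  have hσ' : σ ∈ E.fixingSubgroup := by
    have h1 := E.fixingSubgroup.inv_mem hσ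
    rwa [inv_inv] at h1
  have hβE : (β : AlgebraicClosure K) ∈ E := IntermediateField.mem_adjoin_simple_self K _
  apply RingOfIntegers.ext
  exact (IntermediateField.mem_fixingSubgroup_iff E σ).1 hσ' _ hβE

/-- A binary form of positive degree has zeros modulo `p` for a set of prime numbers of positive
lower density. -/
theorem zeros_pos {d : ℕ} (hd : 0 < d) {C : MvPolynomial (Fin 2) ℤ} (hC : C.IsHomogeneous d)
    {m : ℕ} (hm : 0 < m) :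
    ∃ δ : ℝ, 0 < δ ∧ ∀ᶠ n : ℕ in atTop, δ * (Nat.primeCounting n : ℝ) ≤
      (Nat.card {p : ℕ // p ≤ n ∧ p ∈ {p : ℕ | p.Prime ∧ ¬ p ∣ m ∧
        ∃ c : Pt, (p : ℤ) ∣ c.val C}} : ℝ) := by
  classical
  have hfin : ∀ a : ℤ, a ≠ 0 → ({p : ℕ | p ∣ m ∨ (p : ℤ) ∣ a} : Set ℕ).Finite := by
    intro a ha
    refine ((m.divisors ∪ a.natAbs.divisors).finite_toSet).subset ?_
    rintro p (h | h)
    · exact Finset.mem_coe.2 (Finset.mem_union_left _ (Nat.mem_divisors.2 ⟨h, hm.ne'⟩))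
    · exact Finset.mem_coe.2 (Finset.mem_union_right _ (Nat.mem_divisors.2
        ⟨Int.natCast_dvd.1 h, Int.natAbs_ne_zero.2 ha⟩))
  have hcon : ∀ (O : Set (GK ℚ)) (a : ℤ), IsOpen O → O.Nonempty → a ≠ 0 →
      (∀ p : ℕ, p.Prime → ¬ p ∣ m → ¬ (p : ℤ) ∣ a → (∃ v : HeightOneSpectrum (𝓞 ℚ),
        (p : 𝓞 ℚ) ∈ v.asIdeal ∧ ∃ σ : GK ℚ, IsFrob v σ ∧ σ⁻¹ ∈ O) →
          ∃ c : Pt, (p : ℤ) ∣ c.val C) →
      ∃ δ : ℝ, 0 < δ ∧ ∀ᶠ n : ℕ in atTop, δ * (Nat.primeCounting n : ℝ) ≤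
      (Nat.card {p : ℕ // p ≤ n ∧ p ∈ {p : ℕ | p.Prime ∧ ¬ p ∣ m ∧
        ∃ c : Pt, (p : ℤ) ∣ c.val C}} : ℝ) := by
    intro O a hO hne ha himp
    obtain ⟨δ, hδ, hev⟩ := primes_pos O hO hne {p | p ∣ m ∨ (p : ℤ) ∣ a} (hfin a ha)
    refine ⟨δ, hδ, ?_⟩
    filter_upwards [hev] with n hn
    refine hn.trans ?_
    have h1 := card_le_of_imp (finite_of_imp (finite_le n) fun p (hp : p ≤ n ∧
      p ∈ {p : ℕ | p.Prime ∧ ¬ p ∣ m ∧ ∃ c : Pt, (p : ℤ) ∣ c.val C}) => hp.1)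
      fun p (hp : p ≤ n ∧ p ∈ {p : ℕ | p.Prime ∧ p ∉ {p : ℕ | p ∣ m ∨ (p : ℤ) ∣ a} ∧
        ∃ v : HeightOneSpectrum (𝓞 ℚ), (p : 𝓞 ℚ) ∈ v.asIdeal ∧
          ∃ σ : GK ℚ, IsFrob v σ ∧ σ⁻¹ ∈ O}) =>
        ⟨hp.1, hp.2.1, fun h => hp.2.2.1 (Or.inl h), himp p hp.2.1 (fun h => hp.2.2.1 (Or.inl h))
          (fun h => hp.2.2.1 (Or.inr h)) hp.2.2.2⟩
    exact_mod_cast h1
  by_cases h0 : MvPolynomial.eval ![1, 0] C = 0
  · refine hcon Set.univ 1 isOpen_univ Set.univ_nonempty one_ne_zero fun p _ _ _ _ =>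
      ⟨⟨1, 0, isCoprime_one_left⟩, ?_⟩
    show (p : ℤ) ∣ MvPolynomial.eval ![1, 0] C
    rw [h0]
    exact dvd_zero _
  · obtain ⟨β, a, ha, hβ⟩ := exists_integral_zero hd hC h0
    obtain ⟨O, hO, h1O, hOfix⟩ := exists_fix (K := ℚ) β
    refine hcon O a hO ⟨1, h1O⟩ ha ?_
    rintro p hp _ hpa ⟨v, hpv, σ, ⟨Q, hQ, hQv, hφ⟩, hσ⟩
    have hfix : σ • β = β := hOfix σ hσ
    have h1 := hφ β
    rw [hfix, Pool.Agent.R931.IR.absNorm_eq hp hpv] at h1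
    have hpQ : (p : 𝓞 (AlgebraicClosure ℚ)) ∈ Q := by
      have h2 : (p : 𝓞 ℚ) ∈ Q.comap (algebraMap (𝓞 ℚ) (𝓞 (AlgebraicClosure ℚ))) := hQv ▸ hpv
      rw [Ideal.mem_comap, map_natCast] at h2
      exact h2
    exact zero_mod hp hQ hpQ hC hβ hpa h1

end Pool.Agent.N978.HP
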