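import Pool.Agent.N203.RE.Defs
import Pool.Agent.N978.HP.Base

/-!
# Families of motives over an open subset of the projective line over the rational numbers
-/

set_option autoImplicit false

namespace Pool.Agent.N978.HP

open NumberField IsDedekindDomain Polynomial Module Pool.Agent.Y114.TF Pool.Agent.Y114.GF
  Pool.Agent.Y114.MU Pool.Agent.Y114.RM Pool.Agent.R931.IR Pool.Agent.N203.RE

section family

variable {Γ : Type} [Group Γ] [TopologicalSpace Γ] {ι : Type} [DecidableEq ι] {n : ι → ℕ}

/-- A family of pure motives `M i` of dimension `n i` and weight `w i` over `U`: `Γ` is the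
fundamental group of `U`, `s t : Gal(ℚ) → Γ` is given by the rational point `t` of `U`, `ρ ℓ` are
the `ℓ`-adic realizations (of the generic member; those of the member `M_t` are the restrictions
along `s t`), `𝔤` is the Lie algebra of the motivic Galois group of the generic member over an
algebraically closed field, in the Betti realization. The family has good reduction outside of the
divisors of `m`: if `p` does not divide `m` and the reduction of `t` modulo `p` is in `U`, the member
`M_t` has good reduction at `p`, with the Frobenius polynomials `P p t i`, which depend only on the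
reduction of `t` modulo `p`. -/
structure Family (s : Pt → Gal(AlgebraicClosure ℚ/ℚ) →* Γ) (w : ι → ℤ) (m : ℕ)
    (D : MvPolynomial (Fin 2) ℤ) (P : ℕ → Pt → ι → ℚ[X])
    (ρ : ∀ (ℓ : ℕ) [Fact ℓ.Prime], Reps Γ n ℓ) (𝔤 : Submodule ℚ (End ℚ (Betti n))) : Prop where
  pos : 0 < m
  form : ∃ d, D.IsHomogeneous d
  continuous_point : ∀ t, InU D t → Continuous (s t)
  continuous : ∀ (ℓ : ℕ) [Fact ℓ.Prime], Conts (ρ ℓ)
  good : ∀ (ℓ : ℕ) [Fact ℓ.Prime] (t : Pt) (p : ℕ), GoodAt m D t p → p ≠ ℓ → ∀ v, Above v p →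
    ∀ i, GoodReduction (restrictTo (ρ ℓ) (s t)) i (w i) v (P p t i)
  reduction : ∀ (p : ℕ) (t t' : Pt), GoodAt m D t p → GoodAt m D t' p → t.Cong p t' →
    P p t = P p t'
  reductive : Reductive 𝔤
  motivic : ∀ (ℓ : ℕ) [Fact ℓ.Prime], Motivic (ρ ℓ) (scalars ℓ 𝔤)

/-- There are `r` multiplicatively independent numbers among the eigenvalues of `g` on the `i`-th
representation. -/
def IndependentOn {Δ : Type} [Group Δ] {ℓ : ℕ} [Fact ℓ.Prime] (ρ : Reps Δ n ℓ) (i : ι) (g : Δ)
    (r : ℕ) : Prop :=
  ∃ z : Fin r → PadicAlgCl ℓ, (∀ k, EigenvalueOf ρ i g (z k)) ∧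
    ∀ e : Fin r → ℤ, ∏ k, z k ^ e k = 1 → e = 0

/-- Regular unipotent monodromy of `M i` at the zeros of the binary form `C` of positive degree: if
`t` is a point of `U` whose reduction modulo a prime number `p`, not dividing `m`, is a zero of `C`,
then for every prime number `ℓ ≠ p` there is an element `γ` of the Galois group of `ℚ` (a generator
of the tame inertia group at `p`, or a power of it) which acts unipotently on the `ℓ`-adic
realization of `M_t`, and as a regular unipotent element on the summand given by `M i`: the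
centralizer of its logarithm in the image of `𝔤 ⊗ ℚ_ℓ` in the endomorphisms of the `i`-th summand has
at most the dimension `r`. -/
def RegularCusp (s : Pt → Gal(AlgebraicClosure ℚ/ℚ) →* Γ) (m : ℕ)
    (D C : MvPolynomial (Fin 2) ℤ) (ρ : ∀ (ℓ : ℕ) [Fact ℓ.Prime], Reps Γ n ℓ)
    (𝔤 : Submodule ℚ (End ℚ (Betti n))) (i : ι) (r : ℕ) : Prop :=
  (∃ d, 0 < d ∧ C.IsHomogeneous d) ∧
    ∀ (t : Pt) (p : ℕ), InU D t → p.Prime → ¬ p ∣ m → (p : ℤ) ∣ t.val C →
      ∀ (ℓ : ℕ) [Fact ℓ.Prime], ℓ ≠ p → ∃ γ : Gal(AlgebraicClosure ℚ/ℚ),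
        (∀ j, Unip (restrictTo (ρ ℓ) (s t)) j γ) ∧
          cenDim (restrictTo (ρ ℓ) (s t)) (scalars ℓ 𝔤) i γ ≤ r

end family

/-- `p ^ c` times the Frobenius eigenvalues of the member at `t` are algebraic integers, for all
prime numbers `p` of good reduction. -/
def IntegralMember {ι : Type} (m : ℕ) (D : MvPolynomial (Fin 2) ℤ) (P : ℕ → Pt → ι → ℚ[X]) (c : ℕ)
    (t : Pt) : Prop :=
  ∀ p, GoodAt m D t p → ∀ i, ∀ a : ℂ, aeval a (P p t i) = 0 → IsIntegral ℤ ((p : ℂ) ^ c * a)

end Pool.Agent.N978.HP
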