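import Pool.Agent.N978.HP.Member

/-!
# The theorems for 100 percent of the members
-/

set_option autoImplicit false

namespace Pool.Agent.N978.HP

open NumberField IsDedekindDomain Polynomial Module Filter Topology
  Pool.Agent.Y114.TF Pool.Agent.Y114.GF Pool.Agent.H204R3.GP
  Pool.Agent.Y114.MU Pool.Agent.Y114.RM Pool.Agent.R931.IR Pool.Agent.N203.RE

variable {Γ : Type} [Group Γ] [TopologicalSpace Γ] {ι : Type} [Fintype ι] [DecidableEq ι]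
  {n : ι → ℕ} {s : Pt → Gal(AlgebraicClosure ℚ/ℚ) →* Γ} {w : ι → ℤ} {m : ℕ}
  {D : MvPolynomial (Fin 2) ℤ} {P : ℕ → Pt → ι → ℚ[X]}
  {ρ : ∀ (ℓ : ℕ) [Fact ℓ.Prime], Reps Γ n ℓ} {𝔤 : Submodule ℚ (End ℚ (Betti n))}

/-- The Tate conjecture for one member at one prime number. -/
theorem tate_member {ℓ : ℕ} [hℓ : Fact ℓ.Prime] (ρ : Reps Gal(AlgebraicClosure ℚ/ℚ) n ℓ)
    (hρ : Conts ρ) (w : ι → ℤ) (𝔤 : EndSpace n ℓ) (h𝔤 : Motivic ρ 𝔤)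
    (S : Set (HeightOneSpectrum (𝓞 ℚ))) (hS : S.Finite) (P : HeightOneSpectrum (𝓞 ℚ) → ι → ℚ[X])
    (hP : ∀ v ∉ S, ¬ Above v ℓ → ∀ i, GoodReduction ρ i (w i) v (P v i))
    {p₀ : ℕ} (hp₀ : p₀.Prime) (hp₀ℓ : p₀ ≠ ℓ) (hp₀S : ∀ v, Above v p₀ → v ∉ S)
    {r : ℕ} (hrank : RankLE 𝔤 r) (r' : ι → ℕ)
    (hmax : ∀ v, Above v p₀ → IndepRoots r (Set.range (P v)) ∧ ∀ i, IndepRoots (r' i) {P v i})
    (hun : ∀ i, ∃ γ, (∀ j, Unip ρ j γ) ∧ cenDim ρ 𝔤 i γ ≤ r' i) :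
    Semisimple ρ ∧ TateTensorsOf ρ 𝔤 := by
  obtain ⟨v₀, hv₀⟩ := exists_above hp₀
  let T : Set ℕ := {p | p.Prime ∧ p ≠ ℓ ∧ ∀ v, Above v p → v ∉ S}
  have hTinf : T.Infinite := by
    have h1 : ({p : ℕ | p.Prime} \ ({ℓ} ∪ {p : ℕ | p.Prime ∧ ∃ v ∈ S,
        (p : 𝓞 ℚ) ∈ v.asIdeal})).Infinite :=
      Nat.infinite_setOfPred_prime.sdiff ((Set.finite_singleton ℓ).union (finite_below S hS))
    refine h1.mono ?_
    rintro p ⟨hp, hp'⟩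
    exact ⟨hp, fun h => hp' (Or.inl h), fun v hv hvS => hp' (Or.inr ⟨hp, v, hvS, hv⟩)⟩
  have hT3 : 3 ≤ T.encard := by
    rw [hTinf.encard_eq]
    exact le_top
  have hmot : IsMotivic ρ 𝔤 := h𝔤
  obtain ⟨h1, h2⟩ := main4 (w := w) ρ inputs inputs2 inputs3 hρ 𝔤 hmot P T hT3
    (fun p hp => ⟨hp.1, hp.2.1, fun v hv => unramified hp.1 hv⟩)
    (fun p hp v hv => goodPlace_of ρ
      (hP v (hp.2.2 v hv) (notAbove_of_ne hp.1 hℓ.out hp.2.1 hv)))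
    (show p₀ ∈ T from ⟨hp₀, hp₀ℓ, hp₀S⟩)
    (independentPlaces_of_one P (fun v => above_iff hp₀ hv₀ v)) hv₀ r
    (independentRoots_range (hmax v₀ hv₀).1) hrank r'
    (fun i => independentRoots_one ((hmax v₀ hv₀).2 i)) hun
  exact ⟨h1, fun m φ => ⟨h2 m φ, IsMotivic.tate hmot m φ⟩⟩

/-- **100 percent of the members, at every prime number: the Tate conjecture.** -/
theorem tate_almostAll (hSV : S_SV) (hDV : S_DV) (hAA : S_AA) (h : Family s w m D P ρ 𝔤)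
    (r : ℕ) (hr : RatRankLE 𝔤 r) (r' : ι → ℕ)
    {t₀ : Pt} (ht₀ : InU D t₀) (c : ℕ)
    (hc : ∀ v i, GoodAt m D t₀ (q v) → IntegralRoots c v (P (q v) t₀ i))
    (ℓ₀ : ℕ) [hℓ₀ : Fact ℓ₀.Prime] (σ : Gal(AlgebraicClosure ℚ/ℚ))
    (hσ : IndependentEigenvalues (restrictTo (ρ ℓ₀) (s t₀)) σ r)
    (hσ' : ∀ i, IndependentOn (restrictTo (ρ ℓ₀) (s t₀)) i σ (r' i))
    (C : ι → MvPolynomial (Fin 2) ℤ) (hcusp : ∀ i, RegularCusp s m D (C i) ρ 𝔤 i (r' i)) :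
    AlmostAll fun t => InU D t ∧ ∀ (ℓ : ℕ) [Fact ℓ.Prime],
      Semisimple (restrictTo (ρ ℓ) (s t)) ∧
        TateTensorsOf (restrictTo (ρ ℓ) (s t)) (scalars ℓ 𝔤) := by
  have h1 := h.almostAll_max hSV hDV ht₀ c hc ℓ₀ σ r hσ r' hσ' 2
  have h3 : ∀ i, AlmostAll fun t => ∃ F : Finset ℕ, 2 ≤ F.card ∧ ∀ p ∈ F,
      p.Prime ∧ ¬ p ∣ m ∧ (p : ℤ) ∣ t.val (C i) := fun i =>
    sieve_zeros hSV hDV (hcusp i).1 h.pos 2
  refine almostAll_mono (hAA _ _ h1 (almostAll_forall hAA h3)) ?_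
  rintro t ⟨⟨F, hF, hFp⟩, hcu⟩
  have htU : InU D t := by
    obtain ⟨p, hp, -⟩ := exists_ne hF 0
    exact inU_of_good (hFp p hp).1
  refine ⟨htU, fun ℓ hℓ => ?_⟩
  have hR := h.realizations htU
  obtain ⟨p₀, hp₀, hne⟩ := exists_ne hF ℓ
  obtain ⟨hgood, hr1, hr2⟩ := hFp p₀ hp₀
  refine tate_member (restrictTo (ρ ℓ) (s t))
    (fun i => (h.continuous ℓ i).comp (h.continuous_point t htU)) w (scalars ℓ 𝔤)
    (motivic_restrict (h.motivic ℓ) (s t)) (badPlaces m D t) hR.finite (fun v => P (q v) t)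
    (fun v hv hvℓ => hR.good ℓ v hv hvℓ) hgood.1 hne ?_ (rank_scalars ℓ hr) r' ?_ ?_
  · intro v hv hvb
    apply hvb
    show GoodAt m D t (q v)
    rw [q_eq hgood.1 hv]
    exact hgood
  · intro v hv
    rw [q_eq hgood.1 hv]
    exact ⟨hr1, hr2⟩
  · intro i
    obtain ⟨F', hF', hFp'⟩ := hcu i
    obtain ⟨p, hp, hne'⟩ := exists_ne hF' ℓ
    obtain ⟨hpp, hpm, hdiv⟩ := hFp' p hp
    exact (hcusp i).2 t p htU hpp hpm hdiv ℓ hne'.symm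

theorem compact (K : Type) [Field K] [NumberField K] : CompactSpace Gal(AlgebraicClosure K/K) :=
  inferInstance

/-- **100 percent of the members, at every prime number: the rank theorem.** -/
theorem rank_almostAll (hSV : S_SV) (hDV : S_DV)
    (h : Family s w m D P ρ 𝔤)
    (r : ℕ) (hr : RatRankLE 𝔤 r)
    {t₀ : Pt} (ht₀ : InU D t₀) (c : ℕ)
    (hc : ∀ v i, GoodAt m D t₀ (q v) → IntegralRoots c v (P (q v) t₀ i))
    (ℓ₀ : ℕ) [hℓ₀ : Fact ℓ₀.Prime] (σ : Gal(AlgebraicClosure ℚ/ℚ))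
    (hσ : IndependentEigenvalues (restrictTo (ρ ℓ₀) (s t₀)) σ r) :
    AlmostAll fun t => InU D t ∧ ∀ (ℓ : ℕ) [Fact ℓ.Prime],
      RankTheorem (restrictTo (ρ ℓ) (s t)) 𝔤 r := by
  have h1 := h.almostAll_max hSV hDV ht₀ c hc ℓ₀ σ r hσ (fun _ => 0)
    (fun i => ⟨Fin.elim0, fun k => k.elim0, fun e _ => Subsingleton.elim _ _⟩) 2
  refine almostAll_mono h1 ?_
  rintro t ⟨F, hF, hFp⟩
  have htU : InU D t := by
    obtain ⟨p, hp, -⟩ := exists_ne hF 0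
    exact inU_of_good (hFp p hp).1
  refine ⟨htU, fun ℓ hℓ => ?_⟩
  have hR := h.realizations htU
  obtain ⟨p₀, hp₀, hne⟩ := exists_ne hF ℓ
  obtain ⟨hgood, hr1, -⟩ := hFp p₀ hp₀
  obtain ⟨v₀, hv₀⟩ := exists_above hgood.1
  have hcomp : CompactSpace Gal(AlgebraicClosure ℚ/ℚ) := compact ℚ
  -- the member as a motive over `ℚ`
  have hR' : Realizations (MonoidHom.id Gal(AlgebraicClosure ℚ/ℚ)) w (badPlaces m D t)
      (fun v => P (q v) t) (fun ℓ _ => restrictTo (ρ ℓ) (s t)) 𝔤 :=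
    { continuous_point := continuous_id
      continuous := fun ℓ _ i => (h.continuous ℓ i).comp (h.continuous_point t htU)
      finite := hR.finite
      good := fun ℓ _ v hv hvℓ i => hR.good ℓ v hv hvℓ i
      reductive := h.reductive
      motivic := fun ℓ _ => motivic_restrict (h.motivic ℓ) (s t) }
  refine main_place hR' r hr p₀ ⟨hgood.1, fun v hv => unramified hgood.1 hv, ?_, ?_, v₀, hv₀, ?_⟩ ℓ
    hne.symm
  · intro v hv hvb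
    apply hvb
    show GoodAt m D t (q v)
    rw [q_eq hgood.1 hv]
    exact hgood
  · exact independentPlaces_of_one _ (fun v => above_iff hgood.1 hv₀ v)
  · show IndepRoots r (Set.range (P (q v₀) t))
    rw [q_eq hgood.1 hv₀]
    exact hr1

end Pool.Agent.N978.HP
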