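import Pool.Agent.R931.IR.Place

/-!
# Independent eigenvalues: an open set of Frobenius elements
-/

set_option autoImplicit false

namespace Pool.Agent.N978.HP

open NumberField IsDedekindDomain Polynomial Module Pool.Agent.Y114.TF Pool.Agent.Y114.GF
  Pool.Agent.Y114.MU Pool.Agent.Y114.RM Pool.Agent.H204R3.GP Pool.Agent.R931.IR

/-- Near a group element with multiplicatively independent eigenvalues all Frobenius elements have
multiplicatively independent eigenvalues. -/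
theorem exists_open {ι : Type} [Fintype ι] {n : ι → ℕ} {ℓ : ℕ} [Fact ℓ.Prime]
    (ρ : Reps Gal(AlgebraicClosure ℚ/ℚ) n ℓ) (hρ : Conts ρ) (w : ι → ℤ) (c : ℕ)
    (S : Set (HeightOneSpectrum (𝓞 ℚ)))
    (P : HeightOneSpectrum (𝓞 ℚ) → ι → ℚ[X])
    (hP : ∀ v ∉ S, ∀ i, GoodReduction ρ i (w i) v (P v i) ∧ IntegralRoots c v (P v i))
    (σ : Gal(AlgebraicClosure ℚ/ℚ)) {r : ℕ} (κ : Fin r → ι) (z : Fin r → PadicAlgCl ℓ)
    (hz : ∀ k, EigenvalueOf ρ (κ k) σ (z k)) (hind : ∀ e : Fin r → ℤ, ∏ k, z k ^ e k = 1 → e = 0) :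
    ∃ O : Set Gal(AlgebraicClosure ℚ/ℚ), IsOpen O ∧ σ ∈ O ∧ ∀ v ∉ S,
      ∀ (Q : Ideal (𝓞 (AlgebraicClosure ℚ))) (φ : Gal(AlgebraicClosure ℚ/ℚ)),
        PrimeOver Q v → IsFrobAt Q (q v) φ → φ⁻¹ ∈ O →
        ∃ y : Fin r → ℂ, (∀ k, aeval (y k) (P v (κ k)) = 0) ∧
          ∀ e : Fin r → ℤ, ∏ k, y k ^ e k = 1 → e = 0 := by
  have hz0 : ∀ k, z k ≠ 0 := fun k => root_ne_zero (A := ρ (κ k) σ) (B := ρ (κ k) σ⁻¹) (by
    rw [← map_mul, mul_inv_cancel, map_one]) (hz k)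
  have hM : 0 < (2 * (∑ i, n i) ^ r).factorial := Nat.factorial_pos _
  obtain ⟨ε, hε, hrad⟩ := exists_radius z hz0 hind
    (exs (fun k => w (κ k)) (bd (fun k => w (κ k)) c (∑ i, n i))) (zero_notMem_exs _ _) hM
  let O : Set Gal(AlgebraicClosure ℚ/ℚ) :=
    ⋂ k, {g | ‖aeval (z k) (ρ (κ k) g).charpoly‖ < ε ^ n (κ k)}
  have hO : IsOpen O := by
    apply isOpen_iInter_of_finite
    intro k
    exact isOpen_lt (continuous_eval (ρ (κ k)) (hρ (κ k)) (z k)) continuous_const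
  have hσO : σ ∈ O := by
    refine Set.mem_iInter.2 fun k => ?_
    show ‖aeval (z k) (ρ (κ k) σ).charpoly‖ < ε ^ n (κ k)
    have h1 : aeval (z k) (ρ (κ k) σ).charpoly = 0 := hz k
    rw [h1, norm_zero]
    positivity
  refine ⟨O, hO, hσO, fun v hv Q φ hQ hφ hφO => ?_⟩
  have h1 : ∀ k, ∃ y : PadicAlgCl ℓ, IsRootOf (ρ (κ k) φ⁻¹).charpoly y ∧ ‖y - z k‖ < ε := fun k =>
    exists_root_near _ (z k) hε (Set.mem_iInter.1 hφO k)
  choose y hy hyz using h1
  have hyE := hrad y hyz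
  obtain ⟨j⟩ := exists_emb ℓ
  obtain ⟨p, hp, hpv⟩ := exists_prime v
  have hq : q v = p := absNorm_eq hp hpv
  have hroot : ∀ k, aeval (j (y k)) (P v (κ k)) = 0 := by
    intro k
    have h1 : (ρ (κ k) φ⁻¹).charpoly = (P v (κ k)).map (algebraMap ℚ ℚ_[ℓ]) :=
      ((hP v hv (κ k)).1.2 Q hQ φ).2 hφ
    have h2 : aeval (y k) (ρ (κ k) φ⁻¹).charpoly = 0 := hy k
    rw [h1, aeval_map_algebraMap] at h2
    have h3 := congrArg j.toRatAlgHom h2
    rw [map_zero, ← aeval_algHom_apply] at h3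
    exact h3
  refine ⟨fun k => j (y k), hroot, fun e he => ?_⟩
  by_contra hne
  obtain ⟨e', he', hrel⟩ := relation_complex (fun k => w (κ k)) c (D := ∑ i, n i) hp
    (fun k => P v (κ k)) (fun k => j (y k))
    (fun k => ⟨(good_poly (hP v hv (κ k)).1).1, by
      rw [(good_poly (hP v hv (κ k)).1).2]
      exact Finset.single_le_sum (f := n) (fun _ _ => Nat.zero_le _) (Finset.mem_univ _)⟩)
    (fun k b hb => by
      have h1 := (hP v hv (κ k)).1.1 b (by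
        rw [mem_aroots]
        exact ⟨(good_poly (hP v hv (κ k)).1).1, hb⟩)
      rw [hq] at h1
      exact h1)
    (fun k b hb => by
      have h1 := (hP v hv (κ k)).2 b hb
      rw [hq] at h1
      exact h1)
    hroot ⟨e, hne, he⟩
  apply hyE e' he'
  apply j.injective
  rw [map_one, map_pow, map_prod, ← hrel]
  congr 1
  exact Finset.prod_congr rfl fun k _ => by rw [map_zpow₀]

end Pool.Agent.N978.HP
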