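import Pool.Agent.R931.IR.Place
import Pool.Agent.N978.HP.Form
import Pool.Agent.N978.HP.Cusp

/-!
# Good primes and the points of the sieve
-/

set_option autoImplicit false

namespace Pool.Agent.N978.HP

open NumberField IsDedekindDomain Polynomial Filter Topology
  Pool.Agent.Y114.TF Pool.Agent.Y114.GF Pool.Agent.Y114.MU Pool.Agent.R931.IR

variable {m : ℕ} {D : MvPolynomial (Fin 2) ℤ}

theorem inU_of_good {t : Pt} {p : ℕ} (h : GoodAt m D t p) : InU D t := by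
  intro h0
  exact h.2.2 (h0 ▸ dvd_zero _)

theorem q_eq {p : ℕ} (hp : p.Prime) {v : HeightOneSpectrum (𝓞 ℚ)} (hv : Above v p) : q v = p :=
  absNorm_eq hp hv

/-- the bad places of a member -/
def badPlaces (m : ℕ) (D : MvPolynomial (Fin 2) ℤ) (t : Pt) : Set (HeightOneSpectrum (𝓞 ℚ)) :=
  {v | ¬ GoodAt m D t (q v)}

theorem badPrimes_finite (hm : 0 < m) {t : Pt} (ht : InU D t) :
    ({p : ℕ | p.Prime ∧ ¬ GoodAt m D t p} : Set ℕ).Finite := by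
  refine ((m.divisors ∪ (t.val D).natAbs.divisors).finite_toSet).subset ?_
  rintro p ⟨hp, hbad⟩
  by_cases h : p ∣ m
  · exact Finset.mem_coe.2 (Finset.mem_union_left _ (Nat.mem_divisors.2 ⟨h, hm.ne'⟩))
  · have h' : (p : ℤ) ∣ t.val D := by
      by_contra hcon
      exact hbad ⟨hp, h, hcon⟩
    refine Finset.mem_coe.2 (Finset.mem_union_right _ (Nat.mem_divisors.2 ⟨?_, ?_⟩))
    · exact Int.natCast_dvd.1 h'
    · exact Int.natAbs_ne_zero.2 ht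

theorem badPlaces_finite (hm : 0 < m) {t : Pt} (ht : InU D t) : (badPlaces m D t).Finite := by
  refine Set.Finite.subset ((badPrimes_finite hm ht).biUnion (t := fun p => {v | Above v p})
    fun p hp => finite_above p hp.1) ?_
  intro v hv
  obtain ⟨p, hp, hpv⟩ := exists_prime v
  have hq := q_eq hp hpv
  refine Set.mem_biUnion (x := p) ⟨hp, ?_⟩ hpv
  have hv' : ¬ GoodAt m D t (q v) := hv
  rwa [hq] at hv'

theorem good_of_cong (hD : ∃ d, D.IsHomogeneous d) {t t₀ : Pt} {p : ℕ} (h₀ : GoodAt m D t₀ p)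
    (hc : t.Cong p t₀) : GoodAt m D t p := by
  obtain ⟨d, hd⟩ := hD
  exact ⟨h₀.1, h₀.2.1, not_dvd_of_cong h₀.1 hd hc h₀.2.2⟩

/-- Positive lower density. -/
def PosDensity (A : Set ℕ) : Prop :=
  ∃ δ : ℝ, 0 < δ ∧ ∀ᶠ N : ℕ in atTop, δ * (Nat.primeCounting N : ℝ) ≤
    (Nat.card {p : ℕ // p ≤ N ∧ p ∈ A} : ℝ)

theorem PosDensity.mono {A B : Set ℕ} (hA : PosDensity A) (h : ∀ p ∈ A, p ∈ B) : PosDensity B := by
  obtain ⟨δ, hδ, hev⟩ := hA
  refine ⟨δ, hδ, ?_⟩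
  filter_upwards [hev] with N hN
  refine hN.trans ?_
  have hle := card_le_of_imp (finite_of_imp (finite_le N) fun p (hp : p ≤ N ∧ p ∈ B) => hp.1)
    fun p (hp : p ≤ N ∧ p ∈ A) => ⟨hp.1, h p hp.2⟩
  exact_mod_cast hle

theorem posDensity_zeros {C : MvPolynomial (Fin 2) ℤ} (hC : ∃ d, 0 < d ∧ C.IsHomogeneous d)
    (hm : 0 < m) : PosDensity {p : ℕ | p.Prime ∧ ¬ p ∣ m ∧ ∃ c : Pt, (p : ℤ) ∣ c.val C} := by
  obtain ⟨d, hd, hC⟩ := hC
  exact zeros_pos hd hC hm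

theorem posDensity_good (hm : 0 < m) {t : Pt} (ht : InU D t) :
    PosDensity {p : ℕ | GoodAt m D t p} := by
  have h1 : PosDensity _ := primes_pos Set.univ isOpen_univ Set.univ_nonempty _
    (badPrimes_finite hm ht)
  refine h1.mono ?_
  rintro p ⟨hp, hpB, -⟩
  by_contra hcon
  exact hpB ⟨hp, hcon⟩

/-- The sieve: if the primes in `A` have positive lower density, 100 percent of the points `t` are
congruent to `c p` modulo `p`, for at least `k` primes `p` in `A`. -/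
theorem sieve (hSV : S_SV) (hDV : S_DV) {A : Set ℕ} (hA : PosDensity A) (hA' : ∀ p ∈ A, p.Prime)
    (c : ℕ → Pt) (k : ℕ) :
    AlmostAll fun t => ∃ F : Finset ℕ, k ≤ F.card ∧ ∀ p ∈ F, p ∈ A ∧ t.Cong p (c p) := by
  obtain ⟨δ, hδ, hev⟩ := hA
  exact hSV A c hA' (hDV A δ hA' hδ hev) k

theorem sieve_zeros (hSV : S_SV) (hDV : S_DV) {C : MvPolynomial (Fin 2) ℤ}
    (hC : ∃ d, 0 < d ∧ C.IsHomogeneous d) (hm : 0 < m) (k : ℕ) :
    AlmostAll fun t => ∃ F : Finset ℕ, k ≤ F.card ∧ ∀ p ∈ F,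
      p.Prime ∧ ¬ p ∣ m ∧ (p : ℤ) ∣ t.val C := by
  classical
  have h1 : ∃ c₀ : Pt, True := ⟨⟨1, 0, isCoprime_one_left⟩, trivial⟩
  obtain ⟨c₀, -⟩ := h1
  refine almostAll_mono (sieve hSV hDV (posDensity_zeros hC hm) (fun p hp => hp.1)
    (fun p => if hp : ∃ c : Pt, (p : ℤ) ∣ c.val C then hp.choose else c₀) k) ?_
  rintro t ⟨F, hF, hFp⟩
  refine ⟨F, hF, fun p hp => ?_⟩
  obtain ⟨⟨hpp, hpm, hpc⟩, hcong⟩ := hFp p hp
  obtain ⟨d, -, hC⟩ := hC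
  rw [dif_pos hpc] at hcong
  exact ⟨hpp, hpm, dvd_of_cong hpp hC hcong hpc.choose_spec⟩

theorem sieve_point (hSV : S_SV) (hDV : S_DV) {A : Set ℕ} (hA : PosDensity A)
    (hA' : ∀ p ∈ A, p.Prime) (t₀ : Pt) (k : ℕ) :
    AlmostAll fun t => ∃ F : Finset ℕ, k ≤ F.card ∧ ∀ p ∈ F, p ∈ A ∧ t.Cong p t₀ :=
  sieve hSV hDV hA hA' (fun _ => t₀) k

/-- 100 percent of the points are in `U`. -/
theorem almostAll_inU (hSV : S_SV) (hDV : S_DV) (hm : 0 < m) (hD : ∃ d, D.IsHomogeneous d)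
    {t₀ : Pt} (h₀ : InU D t₀) : AlmostAll (InU D) := by
  refine almostAll_mono (sieve_point hSV hDV (posDensity_good hm h₀) (fun p hp => hp.1) t₀ 1) ?_
  rintro t ⟨F, hF, hFp⟩
  obtain ⟨p, hp⟩ := Finset.card_pos.1 hF
  exact inU_of_good (good_of_cong hD (hFp p hp).1 (hFp p hp).2)

theorem not_dvd_mul {p ℓ m : ℕ} (hp : p.Prime) (hℓ : ℓ.Prime) (hm : ¬ p ∣ m) (hne : p ≠ ℓ) :
    ¬ p ∣ m * ℓ := by
  intro h
  rcases hp.dvd_mul.1 h with h | h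
  · exact hm h
  · exact hne ((Nat.prime_dvd_prime_iff_eq hp hℓ).1 h)

/-- a prime number in `F` different from `ℓ` -/
theorem exists_ne {F : Finset ℕ} (hF : 2 ≤ F.card) (ℓ : ℕ) : ∃ p ∈ F, p ≠ ℓ := by
  obtain ⟨p, hp, hne⟩ := Finset.exists_mem_ne hF ℓ
  exact ⟨p, hp, hne⟩

end Pool.Agent.N978.HP
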