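import Pool.Agent.N978.HP.Defs
import Pool.Agent.N978.HP.Open
import Pool.Agent.N978.HP.Places
import Pool.Agent.N203.RE.Ext
import Pool.Agent.N203.RE.Main

/-!
# From one member to 100 percent of the members
-/

set_option autoImplicit false

namespace Pool.Agent.N978.HP

open NumberField IsDedekindDomain Polynomial Module Filter Topology
  Pool.Agent.Y114.TF Pool.Agent.Y114.GF Pool.Agent.H204R3.GP
  Pool.Agent.Y114.MU Pool.Agent.Y114.RM Pool.Agent.R931.IR Pool.Agent.N203.RE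

variable {Γ : Type} [Group Γ] [TopologicalSpace Γ] {ι : Type} [Fintype ι] [DecidableEq ι]
  {n : ι → ℕ} {s : Pt → Gal(AlgebraicClosure ℚ/ℚ) →* Γ} {w : ι → ℤ} {m : ℕ}
  {D : MvPolynomial (Fin 2) ℤ} {P : ℕ → Pt → ι → ℚ[X]}
  {ρ : ∀ (ℓ : ℕ) [Fact ℓ.Prime], Reps Γ n ℓ} {𝔤 : Submodule ℚ (End ℚ (Betti n))}

omit [Fintype ι] in
/-- a member, as a motive with its realizations -/
theorem Family.realizations (h : Family s w m D P ρ 𝔤) {t : Pt} (ht : InU D t) :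
    Realizations (s t) w (badPlaces m D t) (fun v => P (q v) t) ρ 𝔤 where
  continuous_point := h.continuous_point t ht
  continuous := h.continuous
  finite := badPlaces_finite h.pos ht
  good ℓ hℓ v hv hvℓ i := by
    have h1 : GoodAt m D t (q v) := not_not.1 hv
    obtain ⟨p, hp, hpv⟩ := exists_prime v
    have hq := q_eq hp hpv
    refine h.good ℓ t (q v) h1 ?_ v (hq ▸ hpv) i
    intro hqℓ
    apply hvℓ
    show (ℓ : 𝓞 ℚ) ∈ v.asIdeal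
    rw [← hqℓ, hq]
    exact hpv
  reductive := h.reductive
  motivic := h.motivic

/-- The condition on one prime number: good reduction and Frobenius eigenvalues of maximal rank. -/
def MaxAt (m : ℕ) (D : MvPolynomial (Fin 2) ℤ) (P : ℕ → Pt → ι → ℚ[X]) (r : ℕ) (r' : ι → ℕ)
    (t : Pt) (p : ℕ) : Prop :=
  GoodAt m D t p ∧ IndepRoots r (Set.range (P p t)) ∧ ∀ i, IndepRoots (r' i) {P p t i}

omit [Fintype ι] in
theorem Family.max_of_cong (h : Family s w m D P ρ 𝔤) {r : ℕ} {r' : ι → ℕ} {t t₀ : Pt} {p : ℕ}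
    (h₀ : MaxAt m D P r r' t₀ p) (hc : t.Cong p t₀) : MaxAt m D P r r' t p := by
  have hg : GoodAt m D t p := good_of_cong h.form h₀.1 hc
  have hP := h.reduction p t t₀ hg h₀.1 hc
  exact ⟨hg, hP ▸ h₀.2.1, fun i => hP ▸ h₀.2.2 i⟩

/-- The primes of maximal rank of one member have positive lower density. -/
theorem Family.density (h : Family s w m D P ρ 𝔤) {t₀ : Pt} (ht₀ : InU D t₀) (c : ℕ)
    (hc : ∀ v i, GoodAt m D t₀ (q v) → IntegralRoots c v (P (q v) t₀ i))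
    (ℓ₀ : ℕ) [hℓ₀ : Fact ℓ₀.Prime] (σ : Gal(AlgebraicClosure ℚ/ℚ)) (r : ℕ)
    (hσ : IndependentEigenvalues (restrictTo (ρ ℓ₀) (s t₀)) σ r) (r' : ι → ℕ)
    (hσ' : ∀ i, IndependentOn (restrictTo (ρ ℓ₀) (s t₀)) i σ (r' i)) :
    PosDensity {p : ℕ | MaxAt m D P r r' t₀ p} := by
  classical
  have hR := h.realizations ht₀
  set S := badPlaces m D t₀ ∪ {v | Above v ℓ₀} with hS
  have hSfin : S.Finite := hR.finite.union (finite_above ℓ₀ hℓ₀.out)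
  have hcont : Conts (restrictTo (ρ ℓ₀) (s t₀)) := fun i =>
    (h.continuous ℓ₀ i).comp (h.continuous_point t₀ ht₀)
  have hP : ∀ v ∉ S, ∀ i, GoodReduction (restrictTo (ρ ℓ₀) (s t₀)) i (w i) v (P (q v) t₀ i) ∧
      IntegralRoots c v (P (q v) t₀ i) := fun v hv i =>
    ⟨hR.good ℓ₀ v (fun h' => hv (Or.inl h')) (fun h' => hv (Or.inr h')) i,
      hc v i (not_not.1 fun h' => hv (Or.inl h'))⟩
  obtain ⟨κ, z, hz, hind⟩ := hσ
  obtain ⟨O, hO, hσO, hOv⟩ := exists_open (restrictTo (ρ ℓ₀) (s t₀)) hcont w c S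
    (fun v => P (q v) t₀) hP σ κ z hz hind
  choose z' hz' hind' using hσ'
  have hO' : ∀ i, ∃ O : Set Gal(AlgebraicClosure ℚ/ℚ), IsOpen O ∧ σ ∈ O ∧ ∀ v ∉ S,
      ∀ (Q : Ideal (𝓞 (AlgebraicClosure ℚ))) (φ : Gal(AlgebraicClosure ℚ/ℚ)),
        PrimeOver Q v → IsFrobAt Q (q v) φ → φ⁻¹ ∈ O →
        ∃ y : Fin (r' i) → ℂ, (∀ k, aeval (y k) (P (q v) t₀ i) = 0) ∧
          ∀ e : Fin (r' i) → ℤ, ∏ k, y k ^ e k = 1 → e = 0 := fun i =>
    exists_open (restrictTo (ρ ℓ₀) (s t₀)) hcont w c S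
      (fun v => P (q v) t₀) hP σ (fun _ => i) (z' i) (hz' i) (hind' i)
  choose O' hO'o hσO' hO'v using hO'
  have hOO : IsOpen (O ∩ ⋂ i, O' i) := hO.inter (isOpen_iInter_of_finite hO'o)
  have hB : ({p : ℕ | p.Prime ∧ ∃ v ∈ S, (p : 𝓞 ℚ) ∈ v.asIdeal} : Set ℕ).Finite :=
    finite_below S hSfin
  have hpos : PosDensity _ := primes_pos (O ∩ ⋂ i, O' i) hOO ⟨σ, hσO, Set.mem_iInter.2 hσO'⟩ _ hB
  refine hpos.mono ?_
  rintro p ⟨hp, hpB, v, hpv, φ, ⟨Q, hQ, hQv, hφ⟩, hφO, hφO'⟩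
  have hvS : v ∉ S := fun hv => hpB ⟨hp, v, hv, hpv⟩
  have hq := q_eq hp hpv
  have hgood : GoodAt m D t₀ p := by
    have h1 : GoodAt m D t₀ (q v) := not_not.1 fun h' => hvS (Or.inl h')
    rwa [hq] at h1
  obtain ⟨y, hy, hyi⟩ := hOv v hvS Q φ ⟨hQ.isPrime, hQv⟩ hφ hφO
  refine ⟨hgood, ⟨y, fun k => ⟨P p t₀ (κ k), ⟨κ k, rfl⟩, ?_⟩, hyi⟩, fun i => ?_⟩
  · have := hy k
    rwa [hq] at this
  · obtain ⟨y, hy, hyi⟩ := hO'v i v hvS Q φ ⟨hQ.isPrime, hQv⟩ hφ (Set.mem_iInter.1 hφO' i)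
    refine ⟨y, fun k => ⟨P p t₀ i, rfl, ?_⟩, hyi⟩
    have := hy k
    rwa [hq] at this

/-- 100 percent of the members have at least `k` primes of maximal rank. -/
theorem Family.almostAll_max (hSV : S_SV) (hDV : S_DV) (h : Family s w m D P ρ 𝔤) {t₀ : Pt}
    (ht₀ : InU D t₀) (c : ℕ)
    (hc : ∀ v i, GoodAt m D t₀ (q v) → IntegralRoots c v (P (q v) t₀ i))
    (ℓ₀ : ℕ) [hℓ₀ : Fact ℓ₀.Prime] (σ : Gal(AlgebraicClosure ℚ/ℚ)) (r : ℕ)
    (hσ : IndependentEigenvalues (restrictTo (ρ ℓ₀) (s t₀)) σ r) (r' : ι → ℕ)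
    (hσ' : ∀ i, IndependentOn (restrictTo (ρ ℓ₀) (s t₀)) i σ (r' i)) (k : ℕ) :
    AlmostAll fun t => ∃ F : Finset ℕ, k ≤ F.card ∧ ∀ p ∈ F, MaxAt m D P r r' t p := by
  have h2 := sieve_point hSV hDV (h.density ht₀ c hc ℓ₀ σ r hσ r' hσ') (fun p hp => hp.1.1) t₀ k
  refine almostAll_mono h2 ?_
  rintro t ⟨F, hF, hFp⟩
  exact ⟨F, hF, fun p hp => h.max_of_cong (hFp p hp).1 (hFp p hp).2⟩

end Pool.Agent.N978.HP
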