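import Pool.Agent.Y114.MU.Defs
import Pool.Agent.N978.HP.Base

/-!
# Families of symplectic motives over an open subset of the projective line: definitions
-/

set_option autoImplicit false

namespace Pool.Agent.N978.HP

open NumberField IsDedekindDomain Polynomial Pool.Agent.Y114.TF Pool.Agent.Y114.GF
  Pool.Agent.Y114.MU

variable {ι : Type} {n : ι → ℕ}

/-- At `v` the `i`-th representations have monodromy of infinite order which is not maximally
unipotent: for `ℓ` not below `v` and all `Q` above `v`, the inertia group at `Q` contains an element
`τ` which acts unipotently on all representations (this is so for a power of each element), but not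
as the identity on the `i`-th one, and `(τ - 1) ^ (n i - 1)` acts as zero on the `i`-th one (so there
is more than one Jordan block). -/
def SmallUnipotentAt {F : Type} [Field F] [NumberField F]
    (R : Realizations n Gal(AlgebraicClosure F/F)) (i : ι) (v : HeightOneSpectrum (𝓞 F)) : Prop :=
  ∀ (ℓ : ℕ) [Fact ℓ.Prime], ¬ Above v ℓ → ∀ Q, PrimeOver Q v → ∃ τ, InInertiaAt Q τ ∧
    (∀ j, ActsUnipotently R ℓ j τ) ∧ ¬ SameAction R ℓ i τ 1 ∧ PowZero R ℓ i τ (n i - 1)

variable (R : Pt → Realizations n Gal(AlgebraicClosure ℚ/ℚ))

/-- `R t` are the `ℓ`-adic realizations of the members `M i t` of families `M i` of polarized pure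
motives of dimension `n i` and weight `w` over `U`. They have good reduction outside of the divisors
of `m`: if `p` does not divide `m` and the reduction of `t` modulo `p` is in `U`, the `M i t` have
good reduction at `p`, with the Frobenius polynomials `P p t i`, which depend only on the reduction
of `t` modulo `p`; and `p ^ c` times the Frobenius eigenvalues are algebraic integers. -/
structure SymplecticFamily (w m c : ℕ) (D : MvPolynomial (Fin 2) ℤ) (P : ℕ → Pt → ι → ℚ[X]) :
    Prop where
  pos : 0 < m
  form : ∃ d, D.IsHomogeneous d
  nonempty : ∃ t, InU D t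
  system : ∀ t, InU D t → IsSystem (R t) w
  good : ∀ t p, GoodAt m D t p → ∀ v, Above v p → Pool.Agent.Y114.GF.GoodAt (R t) w v (P p t)
  integral : ∀ t p, GoodAt m D t p → ∀ i, ∀ a : ℂ, aeval a (P p t i) = 0 →
    IsIntegral ℤ ((p : ℂ) ^ c * a)
  reduction : ∀ p t t', GoodAt m D t p → GoodAt m D t' p → t.Cong p t' → P p t = P p t'

/-- The family has the local property `A` at the zeros of the binary form `C` of positive degree: if
`t` is a point of `U` whose reduction modulo a prime number `p`, not dividing `m`, is a zero of `C`,
then the realizations `R t` have the property `A` at `p`. -/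
def AtZeros (m : ℕ) (D C : MvPolynomial (Fin 2) ℤ)
    (A : Realizations n Gal(AlgebraicClosure ℚ/ℚ) → HeightOneSpectrum (𝓞 ℚ) → Prop) : Prop :=
  (∃ d, 0 < d ∧ C.IsHomogeneous d) ∧
    ∀ t p, InU D t → p.Prime → ¬ p ∣ m → (p : ℤ) ∣ t.val C → ∀ v, Above v p → A (R t) v

/-- `M i` has maximally unipotent monodromy at the zeros of `C`, and is distinguished there: no other
`M j` of the same dimension has maximally unipotent monodromy. -/
def MaxUnipotentCusp (m : ℕ) (D C : MvPolynomial (Fin 2) ℤ) (i : ι) : Prop :=
  AtZeros R m D C fun R v => MaxUnipotentAt R i v ∧ DistinguishedAt R i v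

/-- `M i` has monodromy of infinite order which is not maximally unipotent at the zeros of `C`. -/
def SmallCusp (m : ℕ) (D C : MvPolynomial (Fin 2) ℤ) (i : ι) : Prop :=
  AtZeros R m D C fun R v => SmallUnipotentAt R i v

end Pool.Agent.N978.HP
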