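import Mathlib
import Pool.Agent.Y114.MU.Sp

/-!
# Nilpotent elements of the principal `𝔰𝔩₂`
-/

set_option autoImplicit false

namespace Pool.Agent.N978.HP

open Module Pool.Agent.Y114.MU

variable {k : Type*} [Field k] [CharZero k] {V : Type*} [AddCommGroup V] [Module k V]
  [FiniteDimensional k V] {N H f : End k V} {r : ℕ} {v : V}

/-- the span of the vectors `N ^ i v`, `i < j` -/
def Wj (N : End k V) (v : V) (j : ℕ) : Submodule k V :=
  Submodule.span k {x | ∃ i < j, x = (N ^ i) v}

theorem mem_Wj {N : End k V} {v : V} {i j : ℕ} (h : i < j) : (N ^ i) v ∈ Wj N v j :=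
  Submodule.subset_span ⟨i, h, rfl⟩

theorem low_mem (T : Triple N H f r v) {i j : ℕ} (h : i < j) : f ((N ^ i) v) ∈ Wj N v j := by
  rcases i with _ | i
  · rw [pow_zero, Module.End.one_apply, T.low0]
    exact Submodule.zero_mem _
  · rw [T.low]
    exact Submodule.smul_mem _ _ (mem_Wj (by omega))

theorem next (N : End k V) (v : V) (i : ℕ) : N ((N ^ i) v) = (N ^ (i + 1)) v := by
  rw [pow_succ', Module.End.mul_apply]

theorem rest_mem (T : Triple N H f r v) (b c : k) {i j : ℕ} (h : i < j) :
    b • H ((N ^ i) v) + c • f ((N ^ i) v) ∈ Wj N v j := by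
  refine Submodule.add_mem _ (Submodule.smul_mem _ _ ?_) (Submodule.smul_mem _ _ (low_mem T h))
  rw [T.wt]
  exact Submodule.smul_mem _ _ (mem_Wj h)

theorem step_mem (T : Triple N H f r v) (a b c : k) {j : ℕ} {w : V} (hw : w ∈ Wj N v j) :
    (a • N + b • H + c • f) w ∈ Wj N v (j + 1) := by
  refine Submodule.span_induction (p := fun w _ => (a • N + b • H + c • f) w ∈ Wj N v (j + 1))
    ?_ ?_ ?_ ?_ hw
  · rintro _ ⟨i, hi, rfl⟩
    rw [LinearMap.add_apply, LinearMap.add_apply, LinearMap.smul_apply, LinearMap.smul_apply,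
      LinearMap.smul_apply, next, add_assoc]
    exact Submodule.add_mem _ (Submodule.smul_mem _ _ (mem_Wj (by omega)))
      (rest_mem T b c (by omega))
  · rw [map_zero]
    exact Submodule.zero_mem _
  · intro x y _ _ hx hy
    rw [map_add]
    exact Submodule.add_mem _ hx hy
  · intro c' x _ hx
    rw [map_smul]
    exact Submodule.smul_mem _ _ hx

theorem pow_mem (T : Triple N H f r v) (a b c : k) (j : ℕ) :
    ((a • N + b • H + c • f) ^ j) v - a ^ j • (N ^ j) v ∈ Wj N v j := by
  induction j with
  | zero => simp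
  | succ j ih =>
    set X := a • N + b • H + c • f with hX
    have h1 : (X ^ (j + 1)) v - a ^ (j + 1) • (N ^ (j + 1)) v =
        X ((X ^ j) v - a ^ j • (N ^ j) v) +
          a ^ j • (b • H ((N ^ j) v) + c • f ((N ^ j) v)) := by
      rw [pow_succ', Module.End.mul_apply, map_sub, map_smul]
      have h2 : X ((N ^ j) v) = a • (N ^ (j + 1)) v + (b • H ((N ^ j) v) + c • f ((N ^ j) v)) := by
        rw [hX, LinearMap.add_apply, LinearMap.add_apply, LinearMap.smul_apply,
          LinearMap.smul_apply, LinearMap.smul_apply, next, add_assoc]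
      rw [h2, smul_add, smul_smul, ← pow_succ]
      abel
    rw [h1]
    exact Submodule.add_mem _ (step_mem T a b c ih)
      (Submodule.smul_mem _ _ (rest_mem T b c (by omega)))

theorem top_notMem (T : Triple N H f r v) : (N ^ r) v ∉ Wj N v r := by
  intro hmem
  let e := T.reg.bas T.vec
  have h1 : ∀ w ∈ Wj N v r, e.repr w (Fin.last r) = 0 := by
    intro w hw
    refine Submodule.span_induction (p := fun w _ => e.repr w (Fin.last r) = 0) ?_ ?_ ?_ ?_ hw
    · rintro _ ⟨i, hi, rfl⟩
      have h2 : e ⟨i, by omega⟩ = (N ^ i) v := T.reg.bas_apply T.vec ⟨i, by omega⟩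
      rw [← h2, e.repr_self, Finsupp.single_eq_of_ne]
      intro h3
      have h4 := congrArg Fin.val h3
      simp only [Fin.val_last] at h4
      omega
    · rw [map_zero, Finsupp.zero_apply]
    · intro x y _ _ hx hy
      rw [map_add, Finsupp.add_apply, hx, hy, add_zero]
    · intro c x _ hx
      rw [map_smul, Finsupp.smul_apply, hx, smul_zero]
  have h2 : e (Fin.last r) = (N ^ r) v := T.reg.bas_apply T.vec (Fin.last r)
  have h3 := h1 _ hmem
  rw [← h2, e.repr_self, Finsupp.single_eq_same] at h3
  exact one_ne_zero h3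

theorem Fc_ne {r s : ℕ} (hs : 0 < s) (hsr : s ≤ r) : Fc (k := k) r (s : k) ≠ 0 := by
  unfold Fc
  have h1 : (s : k) ≠ 0 := Nat.cast_ne_zero.2 hs.ne'
  have h2 : (r : k) + 1 - s ≠ 0 := by
    have h3 : ((r + 1 - s : ℕ) : k) = (r : k) + 1 - s := by
      rw [Nat.cast_sub (by omega)]
      push_cast
      ring
    rw [← h3]
    exact Nat.cast_ne_zero.2 (by omega)
  exact div_ne_zero (mul_ne_zero h1 h2) two_ne_zero

theorem low_pow (T : Triple N H f r v) (j : ℕ) (hj : j ≤ r) :
    ∃ C : k, C ≠ 0 ∧ (f ^ j) ((N ^ r) v) = C • (N ^ (r - j)) v := by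
  induction j with
  | zero => exact ⟨1, one_ne_zero, by simp⟩
  | succ j ih =>
    obtain ⟨C, hC, h⟩ := ih (by omega)
    refine ⟨C * Fc r ((r - j : ℕ) : k), mul_ne_zero hC (Fc_ne (by omega) (by omega)), ?_⟩
    have h1 : r - j = (r - (j + 1)) + 1 := by omega
    rw [pow_succ', Module.End.mul_apply, h, map_smul, mul_smul]
    congr 1
    conv_lhs => rw [h1]
    rw [T.low]
    congr 2
    rw [h1]
    push_cast
    ring

/-- A nonzero nilpotent element of the span of a principal triple has only one Jordan block. -/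
theorem pow_ne_zero_of_triple (T : Triple N H f r v) (hr : 0 < r) {X : End k V}
    (hX : ∃ a b c : k, X = a • N + b • H + c • f) (hnil : IsNilpotent X) (h0 : X ≠ 0) :
    X ^ r ≠ 0 := by
  obtain ⟨a, b, c, rfl⟩ := hX
  intro hz
  have hv0 : v ≠ 0 := by
    rintro rfl
    exact T.vec (map_zero _)
  by_cases ha : a = 0
  · subst ha
    rw [zero_smul, zero_add] at hnil h0 hz
    have hb : b = 0 := by
      obtain ⟨m, hm⟩ := hnil
      have h1 : ∀ j : ℕ, ((b • H + c • f) ^ j) v = (b * (-(r / 2))) ^ j • v := by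
        intro j
        induction j with
        | zero => simp
        | succ j ih =>
          have h2 := T.wt 0
          rw [pow_zero, Module.End.one_apply, Nat.cast_zero, zero_sub] at h2
          rw [pow_succ', Module.End.mul_apply, ih, map_smul, LinearMap.add_apply,
            LinearMap.smul_apply, LinearMap.smul_apply, T.low0, smul_zero, add_zero, h2,
            smul_smul, smul_smul, pow_succ, mul_assoc]
      have h2 := h1 m
      rw [hm, LinearMap.zero_apply] at h2
      have h3 := (smul_eq_zero.1 h2.symm).resolve_right hv0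
      have h4 : b * (-((r : k) / 2)) = 0 := by
        by_contra hne
        exact pow_ne_zero m hne h3
      refine (mul_eq_zero.1 h4).resolve_right ?_
      exact neg_ne_zero.2 (div_ne_zero (Nat.cast_ne_zero.2 hr.ne') two_ne_zero)
    subst hb
    rw [zero_smul, zero_add] at h0 hz
    have hc : c ≠ 0 := by
      rintro rfl
      exact h0 (zero_smul _ _)
    obtain ⟨C, hC, h1⟩ := low_pow T r le_rfl
    rw [Nat.sub_self, pow_zero, Module.End.one_apply] at h1
    have h2 := congrArg (fun Y : End k V => Y ((N ^ r) v)) hz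
    simp only [smul_pow, LinearMap.smul_apply, h1, LinearMap.zero_apply] at h2
    rcases smul_eq_zero.1 h2 with h3 | h3
    · exact pow_ne_zero r hc h3
    · rcases smul_eq_zero.1 h3 with h4 | h4
      · exact hC h4
      · exact hv0 h4
  · have h1 := pow_mem T a b c r
    rw [hz, LinearMap.zero_apply, zero_sub] at h1
    have h2 : a ^ r • (N ^ r) v ∈ Wj N v r := by
      have := Submodule.neg_mem _ h1
      rwa [neg_neg] at this
    have h3 : (N ^ r) v ∈ Wj N v r := by
      have h4 := Submodule.smul_mem _ (a ^ r)⁻¹ h2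
      rwa [smul_smul, inv_mul_cancel₀ (pow_ne_zero r ha), one_smul] at h4
    exact top_notMem T h3

end Pool.Agent.N978.HP
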