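import Mathlib
import Pool.Agent.Y114.MU.SumTate
import Pool.Agent.N978.HP.Nil

/-!
# Tate classes of a direct sum of representations with maximally unipotent elements

The theorems `factor`, `sum_lie` and `sum_tate` of the library `Pool.Agent.Y114.MU`, with the same
proofs, where the condition that three eigenvalues are independent is replaced by the existence of
a unipotent element which is not the identity and does not have only one Jordan block.
-/

set_option autoImplicit false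
set_option linter.unusedSectionVars false
set_option linter.unusedVariables false

namespace Pool.Agent.N978.HP

open Module Polynomial Pool.Agent.H204R3.GP Pool.Agent.H204R3.SP Pool.Agent.Y114.TF
  Pool.Agent.Y114.MU

section factor

variable {k : Type*} [Field k] [CharZero k] {V : Type*} [AddCommGroup V] [Module k V]
  [FiniteDimensional k V]

variable {r : ℕ} {N : End k V} (hN : Reg N r) (hodd : Odd r) (ω : V →ₗ[k] V →ₗ[k] k)
  (halt : ∀ v, ω v v = 0) (hnd : ∀ u, (∀ v, ω v u = 0) → u = 0)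

include hN hodd halt hnd in
/-- The Lie algebra of one factor is the full symplectic Lie algebra. -/
theorem factor_or {Γ : Type*} [Group Γ] (ρ : Representation k Γ V) (L : Submodule k (End k V))
    (hbr : ∀ X ∈ L, ∀ Y ∈ L, X * Y - Y * X ∈ L) (hsp : L ≤ SpL ω)
    (hconj : ∀ (s : Γ) (X : End k V), X ∈ L → ρ s * X * ρ s⁻¹ ∈ L)
    (hirr : ∀ U : Submodule k V, (∀ s, ∀ u ∈ U, ρ s u ∈ U) → U = ⊥ ∨ U = ⊤) (hNL : N ∈ L)
    (hfrob : 3 ≤ r → (∃ (g : Γ) (P : ℚ[X]), (ρ g).charpoly = P.map (algebraMap ℚ k) ∧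
      ThreeIndependent P) ∨ ∃ X ∈ L, X ≠ 0 ∧ IsNilpotent X ∧ X ^ r = 0) :
    ∃ (e : Basis (Fin (r + 1)) k V) (jj : Fin (r + 1) → k), (∀ x, jj (Fin.rev x) = -jj x) ∧
      (∀ x, jj x ≠ 0) ∧ (∀ x y, ω (e x) (e y) = JJ Fin.rev jj x y) ∧ ∀ u w, SS ω u w ∈ L := by
  classical
  have htr : ∀ X ∈ L, LinearMap.trace k V X = 0 := fun X hX => SpL_trace ω hnd (hsp hX)
  have hirrL : ∀ U : Submodule k V, (∀ X ∈ L, ∀ u ∈ U, X u ∈ U) → U = ⊥ ∨ U = ⊤ := by
    intro U hU
    refine hirr U fun s => ?_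
    have h1 : ∀ X ∈ L, ∀ u ∈ U.map (ρ s), X u ∈ U.map (ρ s) :=
      map_stable L ρ hconj U hU s
    have h2 := hN.stable (hU N hNL)
    have h3 := hN.stable (h1 N hNL)
    have h4 : finrank k (U.map (ρ s)) = finrank k U := by
      refine LinearEquiv.finrank_eq (LinearEquiv.symm (Submodule.equivMapOfInjective (ρ s) ?_ U))
      intro x y hxy
      have := congrArg (ρ s⁻¹) hxy
      rwa [Pool.Agent.Y114.AP.rho_mul_inv, Pool.Agent.Y114.AP.rho_mul_inv] at this
    rw [h4, ← h2] at h3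
    intro u hu
    rw [← h3]
    exact ⟨u, hu, rfl⟩
  obtain ⟨H, f, v, T, hHL, hfL, hcase⟩ := classify L hbr hirrL htr hN hodd hNL
  have hDD : ∀ y, DD (T.reg.bas T.vec) Fin.rev y ∈ L := by
    rcases hcase with h | ⟨hr, h⟩
    · exact h
    · exfalso
      rcases hfrob hr with ⟨g, P, hP, hind⟩ | ⟨X, hX, hX0, hXn, hXr⟩
      · have hgg : ρ g * ρ g⁻¹ = 1 := by rw [← map_mul, mul_inv_cancel, map_one]
        have hgg' : ρ g⁻¹ * ρ g = 1 := by rw [← map_mul, inv_mul_cancel, map_one]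
        exact T.not_independent (by omega) hgg hgg' (h _ (hconj g N hNL)) (h _ (hconj g H hHL))
          (h _ (hconj g f hfL)) hP hind
      · exact pow_ne_zero_of_triple T (by omega) (h X hX) hXn hX0 hXr
  obtain ⟨jj, hjj, hj0, hω⟩ := adapted_form ω hodd halt hnd T (hsp hHL)
  refine ⟨T.reg.bas T.vec, jj, hjj, hj0, hω, ?_⟩
  refine SS_mem_of_basis ω (T.reg.bas T.vec) fun a b => ?_
  refine SS_mem_irr (T.reg.bas T.vec) L hbr hDD Fin.rev_rev ?_ hjj hj0 ω hω hsp hirrL a b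
  intro x hx
  rw [Fin.ext_iff, Fin.val_rev] at hx
  obtain ⟨p, hp⟩ := hodd
  omega

end factor

section sum

variable {k : Type} [Field k] [CharZero k] {ι : Type} [Fintype ι] [DecidableEq ι]
  {V : ι → Type} [∀ i, AddCommGroup (V i)] [∀ i, Module k (V i)]
  {Γ : Type} [Group Γ] (ρ : ∀ i, Representation k Γ (V i)) (χ : Γ →* k)
  (ω : ∀ i, V i →ₗ[k] V i →ₗ[k] k)

/-- **The Lie algebra contains the symplectic Lie algebras of all summands.** -/
theorem sum_lie_or [∀ i, FiniteDimensional k (V i)] (r : ι → ℕ) (hdim : ∀ i, finrank k (V i) = r i + 1)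
    (hodd : ∀ i, Odd (r i)) (halt : ∀ i v, ω i v v = 0)
    (hnd : ∀ i u, (∀ v, ω i v u = 0) → u = 0)
    (hωρ : ∀ i s u v, ω i (ρ i s u) (ρ i s v) = χ s * ω i u v)
    (hirr : ∀ i (U : Submodule k (V i)), (∀ s, ∀ u ∈ U, ρ i s u ∈ U) → U = ⊥ ∨ U = ⊤)
    (τ : ι → Γ) (hχ : ∀ i, χ (τ i) = 1) (hnil : ∀ i j, IsNilpotent (ρ j (τ i) - 1))
    (hne : ∀ i, (ρ i (τ i) - 1) ^ r i ≠ 0)
    (hz : ∀ i j, i ≠ j → r j = r i → (ρ j (τ i) - 1) ^ r j = 0)
    (hfrob : ∀ i, 3 ≤ r i → (∃ (g : Γ) (P : ℚ[X]), (ρ i g).charpoly = P.map (algebraMap ℚ k) ∧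
      ThreeIndependent P) ∨ ∃ γ : Γ, χ γ = 1 ∧ (∀ j, IsNilpotent (ρ j γ - 1)) ∧ ρ i γ ≠ 1 ∧
        (ρ i γ - 1) ^ r i = 0) :
    ∃ (e : ∀ i, Basis (Fin (r i + 1)) k (V i)) (jj : ∀ i, Fin (r i + 1) → k),
      (∀ i x, jj i (Fin.rev x) = -jj i x) ∧ (∀ i x, jj i x ≠ 0) ∧
      (∀ i x y, ω i (e i x) (e i y) = JJ Fin.rev (jj i) x y) ∧
      ∀ i, ∀ X ∈ SpL (ω i), piE (Pi.single i X) ∈ lieT (sumRep ρ) χ := by
  classical
  have hlog : ∀ i, ∃ A ∈ aa ρ χ, ∀ j, IsNilpotent (A j) ∧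
      ∀ m, (A j) ^ m = 0 ↔ (ρ j (τ i) - 1) ^ m = 0 := fun i =>
    exists_log ρ χ (hχ i) (hnil i)
  choose N hN hN' using hlog
  have hreg : ∀ i, Reg (N i i) (r i) := fun i =>
    ⟨hdim i, (hN' i i).1, fun h => hne i (((hN' i i).2 _).1 h)⟩
  -- the components
  let L : ∀ i, Submodule k (End k (V i)) := fun i => (aa ρ χ).map (LinearMap.proj i)
  have hL : ∀ i X, X ∈ L i ↔ ∃ A ∈ aa ρ χ, A i = X := fun i X => Iff.rfl
  have hfac : ∀ i, ∃ (e : Basis (Fin (r i + 1)) k (V i)) (jj : Fin (r i + 1) → k),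
      (∀ x, jj (Fin.rev x) = -jj x) ∧ (∀ x, jj x ≠ 0) ∧
      (∀ x y, ω i (e x) (e y) = JJ Fin.rev jj x y) ∧ ∀ u w, SS (ω i) u w ∈ L i := by
    intro i
    refine factor_or (hreg i) (hodd i) (ω i) (halt i) (hnd i) (ρ i) (L i) ?_ ?_ ?_ (hirr i) ?_
      (fun hi => (hfrob i hi).imp id ?_)
    · rintro _ ⟨A, hA, rfl⟩ _ ⟨B, hB, rfl⟩
      exact ⟨_, aa_bracket ρ χ A hA B hB, rfl⟩
    · rintro _ ⟨A, hA, rfl⟩
      exact aa_sp ρ χ ω hωρ A hA i
    · rintro s _ ⟨A, hA, rfl⟩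
      exact ⟨_, aa_conj ρ χ s A hA, rfl⟩
    · exact ⟨N i, hN i, rfl⟩
    · rintro ⟨γ, hγχ, hγn, hγ1, hγr⟩
      obtain ⟨A, hA, hA'⟩ := exists_log ρ χ hγχ hγn
      refine ⟨A i, ⟨A, hA, rfl⟩, fun h0 => hγ1 ?_, (hA' i).1, ((hA' i).2 _).2 hγr⟩
      have h1 := ((hA' i).2 1).1 (by rw [pow_one]; exact h0)
      rw [pow_one] at h1
      exact sub_eq_zero.1 h1
  choose e jj hjj hj0 hω hSS using hfac
  have hSpL : ∀ i, SpL (ω i) ≤ L i := fun i =>
    SpL_le (ω i) (e i) Fin.rev_rev (hjj i) (hj0 i) (hω i) (hSS i)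
  have hvec : ∀ i, ∃ v : V i, ω i v ((N i i ^ r i) v) ≠ 0 := by
    intro i
    by_contra hcon
    push Not at hcon
    apply (hreg i).ne
    -- the form `(u, v) ↦ ω (N ^ r u) v` is symmetric as `r` is odd
    have hsp := aa_sp ρ χ ω hωρ (N i) (hN i) i
    have hadj : ∀ (m : ℕ) (u w : V i), ω i u ((N i i ^ m) w) = (-1) ^ m * ω i ((N i i ^ m) u) w := by
      intro m
      induction m with
      | zero => intro u w; simp
      | succ m ih =>
        intro u w
        have e1 : (N i i ^ (m + 1)) w = (N i i ^ m) (N i i w) := by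
          rw [pow_succ, Module.End.mul_apply]
        have e2 : (N i i ^ (m + 1)) u = N i i ((N i i ^ m) u) := by
          rw [pow_succ', Module.End.mul_apply]
        rw [e1, e2, ih, pow_succ]
        have h1 := hsp ((N i i ^ m) u) w
        linear_combination (-1) ^ m * h1
    refine LinearMap.ext fun u => ?_
    rw [LinearMap.zero_apply]
    refine hnd i _ fun w => ?_
    have h1 := hcon (u + w)
    simp only [map_add, LinearMap.add_apply, hcon, zero_add, add_zero] at h1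
    have h2 := hadj (r i) u w
    rw [(hodd i).neg_one_pow] at h2
    have h3 := alt_neg (ω i) (halt i) ((N i i ^ r i) u) w
    have h4 : (2 : k) * ω i w ((N i i ^ r i) u) = 0 := by
      linear_combination h1 - h2 + h3
    exact (mul_eq_zero.1 h4).resolve_left two_ne_zero
  -- the pairs
  have hpair0 : ∀ i j, i ≠ j → r j ≤ r i → ∃ A ∈ aa ρ χ, A j = 0 ∧ A i ≠ 0 := by
    intro i j hij hle
    obtain ⟨v, hv⟩ := hvec i
    obtain ⟨Y, hY, hYi⟩ := (hL i _).1 (hSS i v v)
    have hiter : ∀ m : ℕ, (fun l => ((LinearMap.mulLeft k (N i l) -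
        LinearMap.mulRight k (N i l)) ^ m) (Y l)) ∈ aa ρ χ := by
      intro m
      induction m with
      | zero => exact hY
      | succ m ih =>
        have h1 := aa_bracket ρ χ (N i) (hN i) _ ih
        have h2 : (fun l => N i l * ((LinearMap.mulLeft k (N i l) -
            LinearMap.mulRight k (N i l)) ^ m) (Y l) - ((LinearMap.mulLeft k (N i l) -
            LinearMap.mulRight k (N i l)) ^ m) (Y l) * N i l) =
            fun l => ((LinearMap.mulLeft k (N i l) -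
              LinearMap.mulRight k (N i l)) ^ (m + 1)) (Y l) := by
          funext l
          rw [pow_succ', Module.End.mul_apply]
          rfl
        rw [h2] at h1
        exact h1
    refine ⟨_, hiter (2 * r i), ?_, ?_⟩
    · beta_reduce
      refine ad_zero ?_ _
      rcases eq_or_lt_of_le hle with h | h
      · rw [← h]
        exact ((hN' i j).2 _).2 (hz i j hij h)
      · have h1 : finrank k (V j) ≤ r i := by rw [hdim]; omega
        obtain ⟨c, hc⟩ := Nat.exists_eq_add_of_le h1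
        have h2 := (N i j).aeval_self_charpoly
        rw [(show LinearMap.charpoly (N i j) = _ from
          IsNilpotent.charpoly_eq_X_pow_finrank (hN' i j).1)] at h2
        rw [map_pow, aeval_X] at h2
        rw [hc, pow_add, h2, zero_mul]
    · beta_reduce
      rw [ad_top (hreg i).pow_dim, hYi]
      refine smul_ne_zero (mul_ne_zero (pow_ne_zero _ (by norm_num))
        (Nat.cast_ne_zero.2 (Nat.choose_pos (by omega)).ne')) ?_
      intro h0
      have h1 := congrArg (fun T : End k (V i) => T v) h0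
      simp only [Module.End.mul_apply, SS_apply, LinearMap.zero_apply, map_add, map_smul] at h1
      rw [← add_smul, ← two_mul] at h1
      rcases smul_eq_zero.1 h1 with h2 | h2
      · exact (mul_ne_zero two_ne_zero hv) h2
      · rw [h2, map_zero] at hv
        exact hv rfl
  refine ⟨e, jj, hjj, hj0, hω, fun i X hX => ?_⟩
  refine (mem_aa ρ χ _).1 (goursat (aa ρ χ) (aa_bracket ρ χ) (fun i => SpL (ω i))
    (aa_sp ρ χ ω hωρ) (fun i X hX => (hL i X).1 (hSpL i hX)) ?_ ?_ ?_ i hX)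
  · intro i J hJle hJ hJne
    exact SpL_le (ω i) (e i) Fin.rev_rev (hjj i) (hj0 i) (hω i)
      fun u w => J_all (ω i) (halt i) hJle hJ (hnd i) hJne w u
  · intro i
    obtain ⟨v, hv⟩ := hvec i
    refine SpL_nab (ω i) (hnd i) (halt i) (u := v) ?_
    rintro rfl
    rw [map_zero, map_zero] at hv
    exact hv rfl
  · intro i j hij
    rcases le_total (r j) (r i) with h | h
    · exact Or.inl (hpair0 i j hij h)
    · exact Or.inr (hpair0 j i hij.symm h)


end sum

section tate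

variable {k : Type} [Field k] [CharZero k] {ι : Type} [Fintype ι] [DecidableEq ι]
  {V : ι → Type} [∀ i, AddCommGroup (V i)] [∀ i, Module k (V i)] [∀ i, FiniteDimensional k (V i)]
  {Γ : Type} [Group Γ] (ρ : ∀ i, Representation k Γ (V i)) (χ : Γ →* k)
  (ω : ∀ i, V i →ₗ[k] V i →ₗ[k] k)

/-- **Tate classes of the sum.** -/
theorem sum_tate_or (r : ι → ℕ) (hdim : ∀ i, finrank k (V i) = r i + 1)
    (hodd : ∀ i, Odd (r i)) (halt : ∀ i v, ω i v v = 0)
    (hnd : ∀ i u, (∀ v, ω i v u = 0) → u = 0)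
    (hωρ : ∀ i s u v, ω i (ρ i s u) (ρ i s v) = χ s * ω i u v)
    (hirr : ∀ i (U : Submodule k (V i)), (∀ s, ∀ u ∈ U, ρ i s u ∈ U) → U = ⊥ ∨ U = ⊤)
    (τ : ι → Γ) (hχ : ∀ i, χ (τ i) = 1) (hnil : ∀ i j, IsNilpotent (ρ j (τ i) - 1))
    (hne : ∀ i, (ρ i (τ i) - 1) ^ r i ≠ 0)
    (hz : ∀ i j, i ≠ j → r j = r i → (ρ j (τ i) - 1) ^ r j = 0)
    (hfrob : ∀ i, 3 ≤ r i → (∃ (g : Γ) (P : ℚ[X]), (ρ i g).charpoly = P.map (algebraMap ℚ k) ∧
      ThreeIndependent P) ∨ ∃ γ : Γ, χ γ = 1 ∧ (∀ j, IsNilpotent (ρ j γ - 1)) ∧ ρ i γ ≠ 1 ∧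
        (ρ i γ - 1) ^ r i = 0) :
    FiniteIndexSemisimple (sumRep ρ) ∧ HomsGeneratedByPolarizations ρ χ ω := by
  classical
  have hpot : ∀ i (Δ : Subgroup Γ), Δ.FiniteIndex →
      (∀ U : Submodule k (V i), (∀ g ∈ Δ, ∀ u ∈ U, ρ i g u ∈ U) → U = ⊥ ∨ U = ⊤) ∧
      ∀ A : End k (V i), (∀ g ∈ Δ, ∀ x, A (ρ i g x) = ρ i g (A x)) → ∃ c : k, ∀ v, A v = c • v := by
    intro i Δ hΔ
    refine Pool.Agent.Y114.AP.potentially (ρ i) (hirr i) (τ := τ i) (e := 1)
      (by rw [pow_one]; exact hnil i i) ?_ Δ hΔ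
    rw [pow_one, hdim]
    intro h0
    apply hne i
    obtain ⟨p, hp⟩ := hodd i
    obtain ⟨c, hc⟩ := Nat.exists_eq_add_of_le (show (r i + 1) / 2 ≤ r i by omega)
    rw [hc, pow_add, h0, zero_mul]
  have hss : FiniteIndexSemisimple (sumRep ρ) := semi_sum ρ fun i Δ hΔ => (hpot i Δ hΔ).1
  have hcm := comm_sum ρ hpot (fun i j hij Δ hΔ B hB hbij => by
    have h1 : finrank k (V j) = finrank k (V i) := (LinearEquiv.ofBijective B hbij).finrank_eq
    rw [hdim, hdim] at h1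
    have h2 : r j = r i := by omega
    refine not_iso ρ (hnil i i) (hne i) ?_ Δ hΔ B hB hbij
    rw [← h2]
    exact hz i j hij h2)
  refine ⟨hss, ?_⟩
  obtain ⟨e, jj, hjj, hj0, hω, hmem⟩ := sum_lie_or ρ χ ω r hdim hodd halt hnd hωρ hirr τ hχ hnil hne hz
    hfrob
  -- the basis of the sum
  let E : Basis (Σ i, Fin (r i + 1)) k (∀ i, V i) := Pi.basis e
  let inv : (Σ i, Fin (r i + 1)) → (Σ i, Fin (r i + 1)) := fun x => ⟨x.1, Fin.rev x.2⟩
  let J : (Σ i, Fin (r i + 1)) → k := fun x => jj x.1 x.2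
  have hE : ∀ i a, E ⟨i, a⟩ = Pi.single i (e i a) := fun i a => Pi.basis_apply e ⟨i, a⟩
  have hinv : ∀ x, inv (inv x) = x := by
    rintro ⟨i, a⟩
    simp [inv]
  have hrev : ∀ i (a : Fin (r i + 1)), Fin.rev a ≠ a := by
    intro i a ha
    rw [Fin.ext_iff, Fin.val_rev] at ha
    obtain ⟨p, hp⟩ := hodd i
    omega
  have hinvne : ∀ x, inv x ≠ x := by
    rintro ⟨i, a⟩ h
    exact hrev i a (eq_of_heq (Sigma.mk.inj h).2)
  have hJ : ∀ x, J (inv x) = -J x := fun x => hjj x.1 x.2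
  have hJ0 : ∀ x, J x ≠ 0 := fun x => hj0 x.1 x.2
  have hform : ∀ x y, sumForm ω (E x) (E y) = JJ inv J x y := by
    rintro ⟨i, a⟩ ⟨j, b⟩
    rw [hE, hE, sumForm_apply, Finset.sum_eq_single i]
    · rw [Pi.single_eq_same]
      by_cases hij : j = i
      · subst hij
        rw [Pi.single_eq_same, hω]
        unfold JJ
        by_cases hb : b = Fin.rev a
        · rw [if_pos hb, if_pos (by simp [inv, hb])]
        · rw [if_neg hb, if_neg]
          intro h
          exact hb (eq_of_heq (Sigma.mk.inj h).2)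
      · rw [Pi.single_eq_of_ne (Ne.symm hij), map_zero]
        unfold JJ
        rw [if_neg]
        intro h
        exact hij (Sigma.mk.inj h).1
    · intro l _ hl
      rw [Pi.single_eq_of_ne hl, map_zero, LinearMap.zero_apply]
    · intro h
      exact absurd (Finset.mem_univ _) h
  have hDDi : ∀ i a, DD (e i) Fin.rev a ∈ SpL (ω i) := by
    intro i a
    have h1 := SS_inv (e i) (ω i) Fin.rev_rev (hrev i) (hjj i) (hω i) a
    have h2 := SS_mem_SpL (ω i) (halt i) (e i a) (e i (Fin.rev a))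
    rw [h1] at h2
    have h3 := Submodule.smul_mem _ (-jj i a)⁻¹ h2
    rwa [smul_smul, inv_mul_cancel₀ (neg_ne_zero.2 (hj0 i a)), one_smul] at h3
  have hDD : ∀ y, DD E inv y ∈ lieT (sumRep ρ) χ := by
    rintro ⟨i, a⟩
    have h1 := hmem i _ (hDDi i a)
    have h2 : DD E inv ⟨i, a⟩ = piE (Pi.single i (DD (e i) Fin.rev a)) := by
      refine E.ext ?_
      rintro ⟨j, b⟩
      rw [DD_basis, hE, piE_single]
      by_cases hij : j = i
      · subst hij
        rw [Pi.single_eq_same, DD_basis, ← Pi.single_smul]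
        congr 2
        unfold dd
        have e1 : ((⟨j, b⟩ : Σ i, Fin (r i + 1)) = ⟨j, a⟩) ↔ b = a := by
          constructor
          · intro h
            exact eq_of_heq (Sigma.mk.inj h).2
          · rintro rfl
            rfl
        have e2 : ((⟨j, b⟩ : Σ i, Fin (r i + 1)) = inv ⟨j, a⟩) ↔ b = Fin.rev a := by
          constructor
          · intro h
            exact eq_of_heq (Sigma.mk.inj h).2
          · rintro rfl
            rfl
        simp only [e1, e2]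
      · rw [Pi.single_eq_of_ne hij, LinearMap.zero_apply, Pi.single_zero, dd_other, zero_smul]
        · intro h
          exact hij (Sigma.mk.inj h).1
        · intro h
          exact hij (Sigma.mk.inj h).1
    rw [h2]
    exact h1
  intro s₀ t₀ c₀ d₀ hst φ hφ
  have hmain := homs_of (sumRep ρ) χ (sumForm ω) (sumForm_alt _ halt)
    (sumForm_nondeg _ hnd) (sumForm_sim ρ χ ω hωρ)
    (Set.range (partForm ω)) (fun m φ hφ => by
      have h1 := tateG_mem E hinv hinvne hJ hJ0 (sumForm ω) hform (sumRep ρ) χ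
        (sumForm_sim ρ χ ω hωρ) (hasProj_of hss)
        (fun m φ hφ I h0 y => balanced E (sumRep ρ) χ hDD m φ hφ I h0 y) φ hφ
      refine Submodule.span_induction ?_ (Submodule.zero_mem _)
        (fun _ _ _ _ h1 h2 => Submodule.add_mem _ h1 h2) (fun c _ _ h => Submodule.smul_mem _ c h) h1
      rintro _ ⟨σ, B, hB, rfl⟩
      have h2 := mmG_mem_span σ (Set.range (partForm ω)) B fun l =>
        tate2_mem_span ρ χ ω halt hnd hωρ hcm (B l) (hB l)
      refine Submodule.span_mono ?_ h2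
      rintro _ ⟨B', hB', rfl⟩
      exact ⟨σ, B', hB', rfl⟩) s₀ t₀ c₀ d₀ hst φ hφ
  refine Submodule.span_mono ?_ hmain
  rintro f' ⟨m, e, B, hB, hf'⟩
  choose u hu using hB
  refine ⟨m, e, u, fun x y => ?_⟩
  rw [hf']
  refine Finset.prod_congr rfl fun l _ => ?_
  rw [← hu l]


end tate

end Pool.Agent.N978.HP
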