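import Mathlib
import Pool.Agent.N144.MS.Glue
import Pool.Agent.N978.HP.MumDefs
import Pool.Agent.N978.HP.SumTate

/-!
# Direct sums of systems with maximally unipotent monodromy
-/

set_option autoImplicit false

namespace Pool.Agent.N978.HP

open NumberField IsDedekindDomain Polynomial Module Pool.Agent.Y114.TF Pool.Agent.Y114.GF
  Pool.Agent.Y114.MU Pool.Agent.N144.MS
open Pool.Agent.W569.FM Pool.Agent.W571.FM

variable {F : Type} [Field F] [NumberField F] {ι : Type} [Fintype ι] [DecidableEq ι] {n : ι → ℕ}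

/-- The theorem of `Pool.Agent.N144.MS`, where the condition that three Frobenius eigenvalues are
independent may be replaced by one place of monodromy of infinite order, not maximally unipotent. -/
theorem main_or (R : Realizations n Gal(AlgebraicClosure F/F)) (w : ℕ) (hR : IsSystem R w)
    (ℓ : ℕ) (hℓ : ℓ.Prime) (P : HeightOneSpectrum (𝓞 F) → ι → ℚ[X])
    (T : Set ℕ) (hT3 : 3 ≤ T.encard) (hT : ∀ p ∈ T, p.Prime ∧ p ≠ ℓ ∧ UnramifiedIn F p)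
    (hgood : ∀ p ∈ T, ∀ v, Above v p → Pool.Agent.Y114.GF.GoodAt R w v (P v)) (hn : ∀ i, 0 < n i)
    (hdeg : ∀ i, ∃ p : ℕ, (p.Prime ∧ p ≠ ℓ ∧ UnramifiedIn F p) ∧
      (∃ v, Above v p ∧ MaxUnipotentAt R i v ∧ DistinguishedAt R i v) ∧
      ∀ v, Above v p → MaxUnipotentAt R i v ∨ GoodFor R w i v)
    (hind : ∀ i, 4 ≤ n i →
      (∃ v P₀, ¬ Above v ℓ ∧ Pool.Agent.Y114.GF.GoodAt R w v P₀ ∧ ThreeIndependent (P₀ i)) ∨
        ∃ v, ¬ Above v ℓ ∧ SmallUnipotentAt R i v) :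
    R.TateAt ℓ := by
  classical
  have hℓ' : Fact ℓ.Prime := ⟨hℓ⟩
  refine ⟨hℓ', ?_⟩
  have hev : ∀ i, Even (n i) := fun i => even_dim R ℓ i
  have h2 : ∀ i, ∃ r, n i = r + 1 ∧ Odd r := by
    intro i
    obtain ⟨a, ha⟩ := hev i
    have := hn i
    exact ⟨n i - 1, by omega, ⟨a - 1, by omega⟩⟩
  choose r hr hodd using h2
  -- the elements of the inertia groups
  have hτ : ∀ i, ∃ τ : Gal(AlgebraicClosure F/F), R.χ ℓ τ = 1 ∧
      (∀ j, IsNilpotent (R.ρ ℓ j τ - 1)) ∧ (R.ρ ℓ i τ - 1) ^ r i ≠ 0 ∧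
      ∀ j, i ≠ j → r j = r i → (R.ρ ℓ j τ - 1) ^ r j = 0 := by
    intro i
    obtain ⟨p, ⟨hp, hpℓ, hpu⟩, ⟨v, hv, hmu, hdi⟩, -⟩ := hdeg i
    have hvℓ : ¬ Above v ℓ := not_above_of_ne hp hℓ hpℓ hv
    obtain ⟨Q, σ, hQ, hQv, hσ⟩ := frob_cm v
    obtain ⟨hnilp, τ, hτ, hτne, -⟩ := hmu ℓ hvℓ Q ⟨hQ.isPrime, hQv⟩
    have hchi := (char_inertia R hR hQ.isPrime hQv hvℓ hτ hσ).2
    have he : ∀ j, ∃ e : ℕ, 0 < e ∧ IsNilpotent (R.ρ ℓ j (τ ^ e) - 1) ∧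
        (i ≠ j → n j = n i → (R.ρ ℓ j (τ ^ e) - 1) ^ (n j - 1) = 0) := by
      intro j
      by_cases hj : j = i
      · subst hj
        exact ⟨1, Nat.one_pos, by rw [pow_one]; exact hnilp τ hτ, fun h => absurd rfl h⟩
      · obtain ⟨e, he, h1, h2⟩ := hdi j hj ℓ hvℓ Q ⟨hQ.isPrime, hQv⟩ τ hτ
        exact ⟨e, he, h1, fun _ h => h2 h⟩
    choose e he0 he1 he2 using he
    refine ⟨τ ^ (∏ j, e j), by rw [map_pow, hchi, one_pow], fun j => ?_, ?_, fun j hij hrj => ?_⟩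
    · rw [← Finset.mul_prod_erase Finset.univ e (Finset.mem_univ j), pow_mul, map_pow]
      exact pow_nil (he1 j) _
    · rw [map_pow]
      refine pow_ne (hnilp τ hτ) ?_ (Finset.prod_pos fun j _ => he0 j)
      have h3 : n i - 1 = r i := by rw [hr i]; rfl
      rw [← h3]
      exact hτne
    · rw [← Finset.mul_prod_erase Finset.univ e (Finset.mem_univ j), pow_mul, map_pow]
      refine pow_zero_of ?_ _
      have h3 : n j - 1 = r j := by rw [hr j]; rfl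
      rw [← h3]
      exact he2 j hij (by rw [hr i, hr j, hrj])
  choose τ hτχ hτn hτne hτz using hτ
  refine sum_tate_or (R.ρ ℓ) (R.χ ℓ) (R.ω ℓ) r (fun i => by simp [hr i]) hodd (R.alt ℓ)
    (R.nondeg ℓ) (R.sim ℓ) (fun i U hU => ?_) τ hτχ hτn hτne hτz fun i hi => ?_
  · obtain ⟨p, hp, ⟨v, hv, hmu, -⟩, hall⟩ := hdeg i
    exact irreducible_of_mum R hR T hT3 hT hgood i hp hv hmu hall (hn i) U hU
  · rcases hind i (by rw [hr i]; omega) with ⟨v, P₀, hvℓ, hg, hthree⟩ | ⟨v, hvℓ, hsm⟩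
    · left
      obtain ⟨γ, hγ⟩ := exists_frobenius (P := fun _ => P₀) R hR v hg
      exact ⟨γ, P₀ i, (hγ ℓ hvℓ).2 i, hthree⟩
    · right
      obtain ⟨Q, σ, hQ, hQv, hσ⟩ := frob_cm v
      obtain ⟨γ, hγ, hγn, hγ1, hγ0⟩ := hsm ℓ hvℓ Q ⟨hQ.isPrime, hQv⟩
      refine ⟨γ, (char_inertia R hR hQ.isPrime hQv hvℓ hγ hσ).2, hγn, fun h => hγ1 ?_, ?_⟩
      · show R.ρ ℓ i γ = R.ρ ℓ i 1
        rw [h, map_one]
      · have h3 : n i - 1 = r i := by rw [hr i]; rfl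
        rw [← h3]
        exact hγ0

end Pool.Agent.N978.HP
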