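import Pool.Agent.N978.HP.Mum
import Pool.Agent.N978.HP.Open
import Pool.Agent.N978.HP.Places

/-!
# Families of symplectic motives with maximally unipotent monodromy at a cusp
-/

set_option autoImplicit false

namespace Pool.Agent.N978.HP

open NumberField IsDedekindDomain Polynomial Module Filter Topology
  Pool.Agent.Y114.TF Pool.Agent.Y114.GF Pool.Agent.H204R3.GP
  Pool.Agent.Y114.MU Pool.Agent.Y114.RM Pool.Agent.R931.IR

/-- Independent complex roots give independent roots in the algebraic closure of `ℚ_ℓ`. -/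
theorem lift_roots {ℓ : ℕ} [Fact ℓ.Prime] {P : ℚ[X]} (hP0 : P ≠ 0) (h : ThreeIndependent P) :
    ∃ z : Fin 3 → PadicAlgCl ℓ, (∀ k, aeval (z k) P = 0) ∧
      ∀ e : Fin 3 → ℤ, ∏ k, z k ^ e k = 1 → e = 0 := by
  obtain ⟨z, hz, hind⟩ := h
  have hzQ : ∀ i, z i ∈ algebraicClosure ℚ ℂ := fun i =>
    mem_algebraicClosure_iff.2 ⟨P, hP0, hz i⟩
  have hQalg : Algebra.IsAlgebraic ℚ (algebraicClosure ℚ ℂ) := algebraicClosure.isAlgebraic ℚ ℂ
  let j : (algebraicClosure ℚ ℂ) →ₐ[ℚ] PadicAlgCl ℓ := IsAlgClosed.lift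
  refine ⟨fun i => j ⟨z i, hzQ i⟩, fun i => ?_, fun e he => hind e ?_⟩
  · have h1 : aeval (⟨z i, hzQ i⟩ : algebraicClosure ℚ ℂ) P = 0 := by
      have h3 : (algebraicClosure ℚ ℂ).val (aeval (⟨z i, hzQ i⟩ : algebraicClosure ℚ ℂ) P) = 0 := by
        rw [← Polynomial.aeval_algHom_apply]
        exact hz i
      exact (map_eq_zero (algebraicClosure ℚ ℂ).val).1 h3
    rw [Polynomial.aeval_algHom_apply, h1, map_zero]
  · have h2 : j (∏ i, (⟨z i, hzQ i⟩ : algebraicClosure ℚ ℂ) ^ e i) = 1 := by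
      rw [map_prod, ← he]
      exact Finset.prod_congr rfl fun i _ => by rw [map_zpow₀]
    have h3 : (∏ i, (⟨z i, hzQ i⟩ : algebraicClosure ℚ ℂ) ^ e i) = 1 := by
      have h5 : j (∏ i, (⟨z i, hzQ i⟩ : algebraicClosure ℚ ℂ) ^ e i) = j 1 := by rw [h2, map_one]
      exact (RingHom.injective (j : algebraicClosure ℚ ℂ →+* PadicAlgCl ℓ)) h5
    have h4 := congrArg (algebraicClosure ℚ ℂ).val h3
    rw [map_prod, map_one] at h4
    rw [← h4]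
    exact Finset.prod_congr rfl fun i _ => by rw [map_zpow₀]; rfl

variable {ι : Type} [Fintype ι] [DecidableEq ι] {n : ι → ℕ}
  {R : Pt → Realizations n Gal(AlgebraicClosure ℚ/ℚ)} {w m c : ℕ}
  {D : MvPolynomial (Fin 2) ℤ} {P : ℕ → Pt → ι → ℚ[X]}

omit [DecidableEq ι] in
/-- Three independent Frobenius eigenvalues at one prime: positive density. -/
theorem SymplecticFamily.three (h : SymplecticFamily R w m c D P) {t₁ : Pt} {p₁ : ℕ} {i : ι}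
    (hg : GoodAt m D t₁ p₁) (h3 : ThreeIndependent (P p₁ t₁ i)) :
    PosDensity {p : ℕ | GoodAt m D t₁ p ∧ ThreeIndependent (P p t₁ i)} := by
  classical
  obtain ⟨ℓ, hℓ, hne⟩ : ∃ ℓ : ℕ, ℓ.Prime ∧ p₁ ≠ ℓ := by
    by_cases h2 : p₁ = 2
    · exact ⟨3, Nat.prime_three, by omega⟩
    · exact ⟨2, Nat.prime_two, h2⟩
  have hℓ' : Fact ℓ.Prime := ⟨hℓ⟩
  have ht₁ : InU D t₁ := inU_of_good hg
  have hR := h.system t₁ ht₁
  obtain ⟨v₁, hv₁⟩ := Pool.Agent.R931.IR.exists_above hg.1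
  have hvℓ : ¬ Above v₁ ℓ := notAbove_of_ne hg.1 hℓ hne hv₁
  obtain ⟨γ, hγ⟩ := exists_frobenius (P := fun _ => P p₁ t₁) (R t₁) hR v₁
    (h.good t₁ p₁ hg v₁ hv₁)
  have hpoly : ((R t₁).ρ ℓ i γ).charpoly = (P p₁ t₁ i).map (algebraMap ℚ ℚ_[ℓ]) := (hγ ℓ hvℓ).2 i
  have hP0 : P p₁ t₁ i ≠ 0 := by
    intro h0
    rw [h0, Polynomial.map_zero] at hpoly
    exact ((R t₁).ρ ℓ i γ).charpoly_monic.ne_zero hpoly
  obtain ⟨z, hz, hind⟩ := lift_roots (ℓ := ℓ) hP0 h3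
  set S := badPlaces m D t₁ ∪ {v | Above v ℓ} with hS
  have hSfin : S.Finite := (badPlaces_finite h.pos ht₁).union
    (Pool.Agent.R931.IR.finite_above ℓ hℓ)
  have hP : ∀ v ∉ S, ∀ j, GoodReduction ((R t₁).ρ ℓ) j (w : ℤ) v (P (q v) t₁ j) ∧
      IntegralRoots c v (P (q v) t₁ j) := by
    intro v hv j
    have hgv : GoodAt m D t₁ (q v) := not_not.1 fun h' => hv (Or.inl h')
    have hvℓ : ¬ Above v ℓ := fun h' => hv (Or.inr h')
    obtain ⟨p, hp, hpv⟩ := exists_prime v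
    have hq := q_eq hp hpv
    have hga := h.good t₁ (q v) hgv v (hq ▸ hpv)
    refine ⟨⟨fun a ha => ?_, fun Q hQ g => ⟨fun hin => ?_, fun hfr => ?_⟩⟩, fun a ha => ?_⟩
    · rw [hga.pure j a ha, zpow_natCast]
    · exact (hga.unramified ℓ hvℓ j Q hQ g hin).trans (map_one ((R t₁).ρ ℓ j)).symm
    · exact hga.frobenius ℓ hvℓ j Q hQ g hfr
    · exact h.integral t₁ (q v) hgv j a ha
  obtain ⟨O, hO, hσO, hOv⟩ := exists_open ((R t₁).ρ ℓ) (fun j => hR.continuous ℓ j)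
    (fun _ => (w : ℤ)) c S (fun v => P (q v) t₁) hP γ (fun _ : Fin 3 => i) z
    (fun k => by
      show aeval (z k) ((R t₁).ρ ℓ i γ).charpoly = 0
      rw [hpoly, aeval_map_algebraMap]
      exact hz k) hind
  have hB : ({p : ℕ | p.Prime ∧ ∃ v ∈ S, (p : 𝓞 ℚ) ∈ v.asIdeal} : Set ℕ).Finite :=
    finite_below S hSfin
  have h1 : PosDensity _ := primes_pos O hO ⟨γ, hσO⟩ _ hB
  refine h1.mono ?_
  rintro p ⟨hp, hpB, v, hpv, φ, ⟨Q, hQ, hQv, hφ⟩, hφO⟩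
  have hvS : v ∉ S := fun hv => hpB ⟨hp, v, hv, hpv⟩
  have hq := q_eq hp hpv
  have hgood : GoodAt m D t₁ p := by
    have h1 : GoodAt m D t₁ (q v) := not_not.1 fun h' => hvS (Or.inl h')
    rwa [hq] at h1
  obtain ⟨y, hy, hyi⟩ := hOv v hvS Q φ ⟨hQ.isPrime, hQv⟩ hφ hφO
  rw [hq] at hy
  exact ⟨hgood, y, hy, hyi⟩

/-- **The Tate conjecture for explicit members, at a given prime number `ℓ`.** -/
theorem SymplecticFamily.explicit (h : SymplecticFamily R w m c D P) (hn : ∀ i, 0 < n i)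
    (C C' : ι → MvPolynomial (Fin 2) ℤ) (hC : ∀ i, MaxUnipotentCusp R m D (C i) i)
    {t : Pt} (ht : InU D t) {ℓ : ℕ} (hℓ : ℓ.Prime)
    (h1 : ∀ i, ∃ p : ℕ, p.Prime ∧ ¬ p ∣ m * ℓ ∧ (p : ℤ) ∣ t.val (C i))
    (h2 : ∀ i, 4 ≤ n i →
      (SmallCusp R m D (C' i) i ∧ ∃ p : ℕ, p.Prime ∧ ¬ p ∣ m * ℓ ∧ (p : ℤ) ∣ t.val (C' i)) ∨
        ∃ p, p ≠ ℓ ∧ GoodAt m D t p ∧ ThreeIndependent (P p t i)) : (R t).TateAt ℓ := by
  classical
  have hunr : ∀ p : ℕ, p.Prime → UnramifiedIn ℚ p := fun p hp v hv => unramified hp hv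
  have hnot : ∀ p : ℕ, ¬ p ∣ m * ℓ → p ≠ ℓ ∧ ¬ p ∣ m := fun p hp =>
    ⟨fun h' => hp (h' ▸ dvd_mul_left _ _), fun h' => hp (h'.mul_right _)⟩
  have hTinf : ({p : ℕ | p ≠ ℓ ∧ GoodAt m D t p} : Set ℕ).Infinite := by
    have h3 : ({p : ℕ | p.Prime} \ ({ℓ} ∪ {p : ℕ | p.Prime ∧ ¬ GoodAt m D t p})).Infinite :=
      Nat.infinite_setOfPred_prime.sdiff ((Set.finite_singleton ℓ).union
        (badPrimes_finite h.pos ht))
    refine h3.mono ?_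
    rintro p ⟨hp, hp'⟩
    exact ⟨fun h' => hp' (Or.inl h'), not_not.1 fun h' => hp' (Or.inr ⟨hp, h'⟩)⟩
  refine main_or (R t) w (h.system t ht) ℓ hℓ (fun v => P (q v) t)
    {p : ℕ | p ≠ ℓ ∧ GoodAt m D t p} (by rw [hTinf.encard_eq]; exact le_top)
    (fun p hp => ⟨hp.2.1, hp.1, hunr p hp.2.1⟩) (fun p hp v hv => ?_) hn (fun i => ?_)
    fun i hi => ?_
  · have h3 := h.good t p hp.2 v hv
    rwa [← q_eq hp.2.1 hv] at h3
  · obtain ⟨p, hpp, hpm, hdiv⟩ := h1 i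
    have hv := (hC i).2 t p ht hpp (hnot p hpm).2 hdiv
    obtain ⟨v₀, hv₀⟩ := Pool.Agent.R931.IR.exists_above hpp
    exact ⟨p, ⟨hpp, (hnot p hpm).1, hunr p hpp⟩, ⟨v₀, hv₀, hv v₀ hv₀⟩,
      fun v hvp => Or.inl (hv v hvp).1⟩
  · rcases h2 i hi with ⟨hsm, p, hpp, hpm, hdiv⟩ | ⟨p, hne, hg, h3⟩
    · obtain ⟨v₀, hv₀⟩ := Pool.Agent.R931.IR.exists_above hpp
      exact Or.inr ⟨v₀, notAbove_of_ne hpp hℓ (hnot p hpm).1 hv₀,
        hsm.2 t p ht hpp (hnot p hpm).2 hdiv v₀ hv₀⟩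
    · obtain ⟨v₀, hv₀⟩ := Pool.Agent.R931.IR.exists_above hg.1
      exact Or.inl ⟨v₀, P p t, notAbove_of_ne hg.1 hℓ hne hv₀, h.good t p hg v₀ hv₀, h3⟩

/-- **100 percent of the members, at every prime number: the Tate conjecture for families of
symplectic motives with maximally unipotent monodromy.** -/
theorem SymplecticFamily.tate (hSV : S_SV) (hDV : S_DV) (hAA : S_AA)
    (h : SymplecticFamily R w m c D P) (hn : ∀ i, 0 < n i)
    (C C' : ι → MvPolynomial (Fin 2) ℤ) (hC : ∀ i, MaxUnipotentCusp R m D (C i) i)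
    (hC' : ∀ i, 4 ≤ n i → SmallCusp R m D (C' i) i ∨
      ∃ t p, GoodAt m D t p ∧ ThreeIndependent (P p t i)) :
    AlmostAll fun t => InU D t ∧ ∀ ℓ : ℕ, ℓ.Prime → (R t).TateAt ℓ := by
  classical
  have h0 : AlmostAll (InU D) := by
    obtain ⟨t₀, ht₀⟩ := h.nonempty
    exact almostAll_inU hSV hDV h.pos h.form ht₀
  -- maximally unipotent monodromy at two primes
  have h1 : ∀ i, AlmostAll fun t => ∃ F : Finset ℕ, 2 ≤ F.card ∧ ∀ p ∈ F,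
      p.Prime ∧ ¬ p ∣ m ∧ (p : ℤ) ∣ t.val (C i) := fun i =>
    sieve_zeros hSV hDV (hC i).1 h.pos 2
  -- the second condition at two primes
  have h2 : ∀ i, AlmostAll fun t => 4 ≤ n i →
      (SmallCusp R m D (C' i) i ∧ ∃ F : Finset ℕ, 2 ≤ F.card ∧ ∀ p ∈ F,
        p.Prime ∧ ¬ p ∣ m ∧ (p : ℤ) ∣ t.val (C' i)) ∨
      ∃ F : Finset ℕ, 2 ≤ F.card ∧ ∀ p ∈ F, GoodAt m D t p ∧ ThreeIndependent (P p t i) := by
    intro i
    by_cases hi : 4 ≤ n i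
    · rcases hC' i hi with hsm | ⟨t₁, p₁, hg, h3⟩
      · refine almostAll_mono (sieve_zeros hSV hDV hsm.1 h.pos 2) ?_
        exact fun t hF _ => Or.inl ⟨hsm, hF⟩
      · refine almostAll_mono (sieve_point hSV hDV (h.three hg h3) (fun p hp => hp.1.1) t₁ 2) ?_
        rintro t ⟨F, hF, hFp⟩ -
        refine Or.inr ⟨F, hF, fun p hp => ?_⟩
        obtain ⟨⟨hgp, h3p⟩, hc⟩ := hFp p hp
        have hgt := good_of_cong h.form hgp hc
        refine ⟨hgt, ?_⟩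
        rw [h.reduction p t t₁ hgt hgp hc]
        exact h3p
    · exact almostAll_mono h0 fun t _ hi' => absurd hi' hi
  refine almostAll_mono (hAA _ _ h0 (hAA _ _ (almostAll_forall hAA h1)
    (almostAll_forall hAA h2))) ?_
  rintro t ⟨ht, ht1, ht2⟩
  refine ⟨ht, fun ℓ hℓ => h.explicit hn C C' hC ht hℓ (fun i => ?_) fun i hi => ?_⟩
  · obtain ⟨F, hF, hFp⟩ := ht1 i
    obtain ⟨p, hp, hne⟩ := exists_ne hF ℓ
    obtain ⟨hpp, hpm, hdiv⟩ := hFp p hp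
    exact ⟨p, hpp, not_dvd_mul hpp hℓ hpm hne, hdiv⟩
  · rcases ht2 i hi with ⟨hsm, F, hF, hFp⟩ | ⟨F, hF, hFp⟩
    · obtain ⟨p, hp, hne⟩ := exists_ne hF ℓ
      obtain ⟨hpp, hpm, hdiv⟩ := hFp p hp
      exact Or.inl ⟨hsm, p, hpp, not_dvd_mul hpp hℓ hpm hne, hdiv⟩
    · obtain ⟨p, hp, hne⟩ := exists_ne hF ℓ
      exact Or.inr ⟨p, hne, hFp p hp⟩

end Pool.Agent.N978.HP
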